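import Pool.Agent.R571.TO.Inj

/-! Cutting times, kneading map, and monotone pull backs along the critical orbit. -/

namespace Pool.Agent.R571.TO

open Set Filter Topology

def T8 (r : ℕ) : ℕ :=
  match r with
  | 0 => 5 | 1 => 8 | 2 => 10 | 3 => 13 | 4 => 16 | 5 => 18 | 6 => 20 | _ => 30

def U8 (r : ℕ) : ℕ :=
  match r with
  | 0 => 1 | 1 => 2 | 2 => 1 | 3 => 2 | 4 => 2 | 5 => 1 | 6 => 1 | _ => 5

/-- the cutting times -/
def Sx (k : ℕ) : ℕ :=
  match k with
  | 0 => 1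
  | 1 => 2
  | 2 => 3
  | k + 3 => 10 ^ (k / 8) * T8 (k % 8)

/-- the kneading map -/
def Qx (k : ℕ) : ℕ :=
  match k with
  | 0 => 0
  | 1 => 0
  | 2 => 0
  | k + 3 => 8 * (k / 8) + U8 (k % 8)

lemma Sx_eq (m r : ℕ) (hr : r < 8) : Sx (8 * m + r + 3) = 10 ^ m * T8 r := by
  show 10 ^ ((8 * m + r) / 8) * T8 ((8 * m + r) % 8) = _
  have h1 : (8 * m + r) / 8 = m := by omega
  have h2 : (8 * m + r) % 8 = r := by omega
  rw [h1, h2]

lemma Qx_eq (m r : ℕ) (hr : r < 8) : Qx (8 * m + r + 3) = 8 * m + U8 r := by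
  show 8 * ((8 * m + r) / 8) + U8 ((8 * m + r) % 8) = _
  have h1 : (8 * m + r) / 8 = m := by omega
  have h2 : (8 * m + r) % 8 = r := by omega
  rw [h1, h2]

lemma Sx_one (m : ℕ) : Sx (8 * m + 1) = 10 ^ m * 2 := by
  rcases Nat.eq_zero_or_pos m with rfl | hm
  · rfl
  · obtain ⟨m, rfl⟩ : ∃ m', m = m' + 1 := ⟨m - 1, by omega⟩
    rw [show 8 * (m + 1) + 1 = 8 * m + 6 + 3 by ring, Sx_eq _ _ (by norm_num), pow_succ]
    show 10 ^ m * 20 = _
    ring

lemma Sx_two (m : ℕ) : Sx (8 * m + 2) = 10 ^ m * 3 := by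
  rcases Nat.eq_zero_or_pos m with rfl | hm
  · rfl
  · obtain ⟨m, rfl⟩ : ∃ m', m = m' + 1 := ⟨m - 1, by omega⟩
    rw [show 8 * (m + 1) + 2 = 8 * m + 7 + 3 by ring, Sx_eq _ _ (by norm_num), pow_succ]
    show 10 ^ m * 30 = _
    ring

/-! first differences of the cutting times -/

lemma be_ne_bv (m : ℕ) : be m ≠ bv m := by
  rcases abc m with ⟨-, -, h1, h2⟩ | ⟨-, -, h1, h2⟩ | ⟨-, -, h1, h2⟩ <;> rw [h1, h2] <;> simp

lemma bv_succ (m : ℕ) : bv (m + 1) = !al m := by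
  rw [← al_succ]
  rcases abc (m + 1) with ⟨h, -⟩ | ⟨-, h1, -, h2⟩ | ⟨-, h1, -, h2⟩
  · omega
  · rw [h1, h2]
  · rw [h1, h2]

lemma d0 (m d : ℕ) (h1 : 1 ≤ d) (h2 : d < 10) : W m d = tab m d true := by
  have := W_dig m 0 d h1 h2
  rwa [mul_zero, zero_add, chi_zero] at this

lemma c0 (d : ℕ) (h2 : d < 10) : chi d = chiT d true := by
  have := chi_dig 0 d h2
  rwa [mul_zero, zero_add, chi_zero] at this

lemma d1 (m d : ℕ) (h1 : 1 ≤ d) (h2 : d < 10) : W m (10 + d) = tab m d false := by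
  have := W_dig m 1 d h1 h2
  rwa [mul_one, chi1] at this

lemma c1 (d : ℕ) (h2 : d < 10) : chi (10 + d) = chiT d false := by
  have := chi_dig 1 d h2
  rwa [mul_one, chi1] at this

lemma R21 (m : ℕ) : IsR (10 ^ m * 2) (10 ^ m * 1) := by
  refine IsR.of_Ag le_rfl (Ag.one chi2) ?_
  show W m 3 ≠ W m 1
  rw [W3, W1]
  exact be_ne_bv m

lemma R32 (m : ℕ) : IsR (10 ^ m * 3) (10 ^ m * 2) := by
  refine IsR.of_Ag (by norm_num) (Ag.two chi3 ?_ ?_) ?_
  · exact d0 m 4 (by norm_num) (by norm_num)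
  · exact c0 4 (by norm_num)
  · show W m 5 ≠ W m 2
    rw [W2, d0 m 5 (by norm_num) (by norm_num)]
    simp [tab]

lemma R53 (m : ℕ) : IsR (10 ^ m * 5) (10 ^ m * 3) := by
  refine IsR.of_Ag (by norm_num) (Ag.three (c0 5 (by norm_num)) ?_ ?_ ?_ ?_) ?_
  · exact d0 m 6 (by norm_num) (by norm_num)
  · exact c0 6 (by norm_num)
  · exact d0 m 7 (by norm_num) (by norm_num)
  · exact c0 7 (by norm_num)
  · show W m 8 ≠ W m 3
    rw [W3, d0 m 8 (by norm_num) (by norm_num)]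
    simp [tab]

lemma R82 (m : ℕ) : IsR (10 ^ m * 8) (10 ^ m * 2) := by
  refine IsR.of_Ag (by norm_num) (Ag.two (c0 8 (by norm_num)) ?_ ?_) ?_
  · exact d0 m 9 (by norm_num) (by norm_num)
  · exact c0 9 (by norm_num)
  · show W m (10 * 1) ≠ W m 2
    rw [W2, W_ten _ _ le_rfl, W1, bv_succ]
    simp

lemma R103 (m : ℕ) : IsR (10 ^ m * 10) (10 ^ m * 3) := by
  refine IsR.of_Ag (by norm_num) (Ag.three (chi_ten 1) ?_ ?_ ?_ ?_) ?_
  · exact d1 m 1 (by norm_num) (by norm_num)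
  · exact c1 1 (by norm_num)
  · exact d1 m 2 (by norm_num) (by norm_num)
  · exact c1 2 (by norm_num)
  · show W m (10 + 3) ≠ W m 3
    rw [W3, d1 m 3 (by norm_num) (by norm_num)]
    simp [tab]

lemma R133 (m : ℕ) : IsR (10 ^ m * 13) (10 ^ m * 3) := by
  refine IsR.of_Ag (by norm_num) (Ag.three (c1 3 (by norm_num)) ?_ ?_ ?_ ?_) ?_
  · exact d1 m 4 (by norm_num) (by norm_num)
  · exact c1 4 (by norm_num)
  · exact d1 m 5 (by norm_num) (by norm_num)
  · exact c1 5 (by norm_num)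
  · show W m (10 + 6) ≠ W m 3
    rw [W3, d1 m 6 (by norm_num) (by norm_num)]
    simp [tab]

lemma R162 (m : ℕ) : IsR (10 ^ m * 16) (10 ^ m * 2) := by
  refine IsR.of_Ag (by norm_num) (Ag.two (c1 6 (by norm_num)) ?_ ?_) ?_
  · exact d1 m 7 (by norm_num) (by norm_num)
  · exact c1 7 (by norm_num)
  · show W m (10 + 8) ≠ W m 2
    rw [W2, d1 m 8 (by norm_num) (by norm_num)]
    simp [tab]

lemma R182 (m : ℕ) : IsR (10 ^ m * 18) (10 ^ m * 2) := by
  refine IsR.of_Ag (by norm_num) (Ag.two (c1 8 (by norm_num)) ?_ ?_) ?_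
  · exact d1 m 9 (by norm_num) (by norm_num)
  · exact c1 9 (by norm_num)
  · show W m (10 * 2) ≠ W m 2
    rw [W2, W_ten _ _ (by norm_num), W2, al_succ]
    simp

/-- the recursion for cutting times -/
theorem Sx_main (k : ℕ) : Sx (k + 1) = Sx k + Sx (Qx (k + 1)) ∧ IsR (Sx k) (Sx (Qx (k + 1))) ∧
    Sp (Sx k) ∨ (∃ m, Sx k = 10 ^ m * 5 ∨ Sx k = 10 ^ m * 8 ∨ Sx k = 10 ^ m * 16 ∨
      Sx k = 10 ^ m * 18) ∧ Sx (k + 1) = Sx k + Sx (Qx (k + 1)) ∧
      IsR (Sx k) (Sx (Qx (k + 1))) := by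
  rcases Nat.lt_or_ge k 3 with hk | hk
  · left
    interval_cases k
    · refine ⟨rfl, ?_, Or.inl ⟨0, 1, by norm_num, by norm_num, rfl⟩⟩
      show IsR 1 1
      exact IsR.one (by rw [w2])
    · refine ⟨rfl, ?_, Or.inl ⟨0, 2, by norm_num, by norm_num, rfl⟩⟩
      show IsR 2 1
      have := R21 0
      simpa using this
    · refine ⟨rfl, ?_, Or.inl ⟨0, 3, by norm_num, by norm_num, rfl⟩⟩
      show IsR 3 2
      have := R32 0
      simpa using this
  · obtain ⟨m, r, hr, rfl⟩ : ∃ m r, r < 8 ∧ k = 8 * m + r + 3 :=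
      ⟨(k - 3) / 8, (k - 3) % 8, by omega, by omega⟩
    interval_cases r
    · right
      have e1 : Sx (8 * m + 0 + 3) = 10 ^ m * 5 := Sx_eq m 0 (by norm_num)
      have e2 : Sx (8 * m + 0 + 3 + 1) = 10 ^ m * 8 := Sx_eq m 1 (by norm_num)
      have e3 : Qx (8 * m + 0 + 3 + 1) = 8 * m + 2 := Qx_eq m 1 (by norm_num)
      rw [e1, e2, e3, Sx_two]
      exact ⟨⟨m, Or.inl rfl⟩, by ring, R53 m⟩
    · right
      have e1 : Sx (8 * m + 1 + 3) = 10 ^ m * 8 := Sx_eq m 1 (by norm_num)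
      have e2 : Sx (8 * m + 1 + 3 + 1) = 10 ^ m * 10 := Sx_eq m 2 (by norm_num)
      have e3 : Qx (8 * m + 1 + 3 + 1) = 8 * m + 1 := Qx_eq m 2 (by norm_num)
      rw [e1, e2, e3, Sx_one]
      exact ⟨⟨m, Or.inr (Or.inl rfl)⟩, by ring, R82 m⟩
    · left
      have e1 : Sx (8 * m + 2 + 3) = 10 ^ m * 10 := Sx_eq m 2 (by norm_num)
      have e2 : Sx (8 * m + 2 + 3 + 1) = 10 ^ m * 13 := Sx_eq m 3 (by norm_num)
      have e3 : Qx (8 * m + 2 + 3 + 1) = 8 * m + 2 := Qx_eq m 3 (by norm_num)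
      rw [e1, e2, e3, Sx_two]
      exact ⟨by ring, R103 m, Or.inl ⟨m + 1, 1, by norm_num, by norm_num, by ring⟩⟩
    · left
      have e1 : Sx (8 * m + 3 + 3) = 10 ^ m * 13 := Sx_eq m 3 (by norm_num)
      have e2 : Sx (8 * m + 3 + 3 + 1) = 10 ^ m * 16 := Sx_eq m 4 (by norm_num)
      have e3 : Qx (8 * m + 3 + 3 + 1) = 8 * m + 2 := Qx_eq m 4 (by norm_num)
      rw [e1, e2, e3, Sx_two]
      exact ⟨by ring, R133 m, Or.inr ⟨m, rfl⟩⟩
    · right
      have e1 : Sx (8 * m + 4 + 3) = 10 ^ m * 16 := Sx_eq m 4 (by norm_num)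
      have e2 : Sx (8 * m + 4 + 3 + 1) = 10 ^ m * 18 := Sx_eq m 5 (by norm_num)
      have e3 : Qx (8 * m + 4 + 3 + 1) = 8 * m + 1 := Qx_eq m 5 (by norm_num)
      rw [e1, e2, e3, Sx_one]
      exact ⟨⟨m, Or.inr (Or.inr (Or.inl rfl))⟩, by ring, R162 m⟩
    · right
      have e1 : Sx (8 * m + 5 + 3) = 10 ^ m * 18 := Sx_eq m 5 (by norm_num)
      have e2 : Sx (8 * m + 5 + 3 + 1) = 10 ^ m * 20 := Sx_eq m 6 (by norm_num)
      have e3 : Qx (8 * m + 5 + 3 + 1) = 8 * m + 1 := Qx_eq m 6 (by norm_num)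
      rw [e1, e2, e3, Sx_one]
      exact ⟨⟨m, Or.inr (Or.inr (Or.inr rfl))⟩, by ring, R182 m⟩
    · left
      have e1 : Sx (8 * m + 6 + 3) = 10 ^ m * 20 := Sx_eq m 6 (by norm_num)
      have e2 : Sx (8 * m + 6 + 3 + 1) = 10 ^ m * 30 := Sx_eq m 7 (by norm_num)
      have e3 : Qx (8 * m + 6 + 3 + 1) = 8 * m + 5 := Qx_eq m 7 (by norm_num)
      have e4 : Sx (8 * m + 5) = 10 ^ m * 10 := Sx_eq m 2 (by norm_num)
      rw [e1, e2, e3, e4]
      refine ⟨by ring, ?_, Or.inl ⟨m + 1, 2, by norm_num, by norm_num, by ring⟩⟩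
      have := R21 (m + 1)
      rwa [show 10 ^ (m + 1) * 2 = 10 ^ m * 20 by ring,
        show 10 ^ (m + 1) * 1 = 10 ^ m * 10 by ring] at this
    · left
      have e1 : Sx (8 * m + 7 + 3) = 10 ^ m * 30 := Sx_eq m 7 (by norm_num)
      have e2 : Sx (8 * m + 7 + 3 + 1) = 10 ^ (m + 1) * 5 := Sx_eq (m + 1) 0 (by norm_num)
      have e3 : Qx (8 * m + 7 + 3 + 1) = 8 * (m + 1) + 1 := Qx_eq (m + 1) 0 (by norm_num)
      rw [e1, e2, e3, Sx_one]
      refine ⟨by ring, ?_, Or.inl ⟨m + 1, 3, by norm_num, by norm_num, by ring⟩⟩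
      have := R32 (m + 1)
      rwa [show 10 ^ (m + 1) * 3 = 10 ^ m * 30 by ring] at this

lemma Sx_succ (k : ℕ) : Sx (k + 1) = Sx k + Sx (Qx (k + 1)) := by
  rcases Sx_main k with ⟨h, -⟩ | ⟨-, h, -⟩ <;> exact h

lemma Sx_R (k : ℕ) : IsR (Sx k) (Sx (Qx (k + 1))) := by
  rcases Sx_main k with ⟨-, h, -⟩ | ⟨-, -, h⟩ <;> exact h

lemma Sx_pos (k : ℕ) : 1 ≤ Sx k := by
  rcases Nat.eq_zero_or_pos k with rfl | hk
  · exact le_rfl
  · obtain ⟨k, rfl⟩ : ∃ k', k = k' + 1 := ⟨k - 1, by omega⟩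
    rw [Sx_succ]
    have := (Sx_R k).1
    omega

lemma Sx_strict : StrictMono Sx := strictMono_nat_of_lt_succ fun k => by
  rw [Sx_succ]
  have := (Sx_R k).1
  omega

lemma Qx_lt (k : ℕ) : Qx (k + 1) ≤ k := by
  rcases Nat.lt_or_ge k 3 with hk | hk
  · interval_cases k <;> decide
  · obtain ⟨m, r, hr, rfl⟩ : ∃ m r, r < 8 ∧ k = 8 * m + r + 2 :=
      ⟨(k - 2) / 8, (k - 2) % 8, by omega, by omega⟩
    rw [show 8 * m + r + 2 + 1 = 8 * m + r + 3 by ring, Qx_eq _ _ hr]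
    interval_cases r <;> simp [U8]

lemma Qx_ge (k : ℕ) : k ≤ Qx k + 10 := by
  rcases Nat.lt_or_ge k 3 with hk | hk
  · omega
  · obtain ⟨m, r, hr, rfl⟩ : ∃ m r, r < 8 ∧ k = 8 * m + r + 3 :=
      ⟨(k - 3) / 8, (k - 3) % 8, by omega, by omega⟩
    rw [Qx_eq _ _ hr]
    omega

lemma Qx_tendsto : Tendsto Qx atTop atTop := by
  refine tendsto_atTop.2 fun b => ?_
  filter_upwards [eventually_ge_atTop (b + 10)] with k hk
  have := Qx_ge k
  omega

/-- all cutting times have an odd number of ones -/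
lemma CP_Sx (k : ℕ) : CP (Sx k) = -1 := by
  induction k using Nat.strong_induction_on with
  | _ k ih =>
    rcases Nat.eq_zero_or_pos k with rfl | hk
    · exact CP_Sp (Or.inl ⟨0, 1, by norm_num, by norm_num, rfl⟩)
    · obtain ⟨k, rfl⟩ : ∃ k', k = k' + 1 := ⟨k - 1, by omega⟩
      have h1 := ih k (by omega)
      have h2 := ih (Qx (k + 1)) (by have := Qx_lt k; omega)
      have hR := Sx_R k
      rw [Sx_succ]
      set a := Sx k
      obtain ⟨r, hr⟩ : ∃ r, Sx (Qx (k + 1)) = r + 1 := ⟨Sx (Qx (k + 1)) - 1, by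
        have := hR.1; omega⟩
      rw [hr] at h2 hR ⊢
      unfold CP at h1 h2 ⊢
      rw [Finset.prod_range_add, h1, Finset.prod_range_succ]
      rw [Finset.prod_range_succ] at h2
      have h3 : ∏ i ∈ Finset.range r, sg (W 0 (a + i + 1)) =
          ∏ i ∈ Finset.range r, sg (W 0 (i + 1)) := by
        refine Finset.prod_congr rfl fun i hi => ?_
        have := Finset.mem_range.1 hi
        rw [add_assoc, hR.2.1 (i + 1) (by omega) (by omega)]
      have h4 : sg (W 0 (a + r + 1)) = - sg (W 0 (r + 1)) := by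
        have := hR.2.2
        rw [← add_assoc] at this
        revert this
        cases W 0 (a + r + 1) <;> cases W 0 (r + 1) <;> simp [sg]
      rw [h3, h4, mul_neg, h2]
      decide

lemma tent_low {s x : ℝ} (h : x ≤ 1 / 2) : tent s x = s * x := by
  unfold tent; rw [min_eq_left (by linarith)]

lemma tent_high {s x : ℝ} (h : 1 / 2 ≤ x) : tent s x = s * (1 - x) := by
  unfold tent; rw [min_eq_right (by linarith)]

namespace Kn

variable {s : ℝ} (K : Kn s)
include K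

lemma c_one : (tent s)^[1] (1 / 2) = s / 2 := by
  rw [Function.iterate_one]
  unfold tent
  norm_num
  ring

lemma s_lt : s < 2 := by
  rcases K.h2.lt_or_eq with h | h
  · exact h
  · exfalso
    have h4 := (K.h 4 (by norm_num)).1.1 w4
    subst h
    have e1 : tent 2 (1 / 2) = 1 := by unfold tent; norm_num
    have e2 : tent 2 1 = 0 := by unfold tent; norm_num
    have e3 : tent 2 0 = 0 := by unfold tent; norm_num
    have : (tent 2)^[4] (1 / 2) = 0 := by
      show tent 2 (tent 2 (tent 2 (tent 2 (1 / 2)))) = 0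
      rw [e1, e2, e3, e3]
    rw [this] at h4
    norm_num at h4

lemma orb_bd (n : ℕ) (hn : 1 ≤ n) : s * (1 - s / 2) ≤ (tent s)^[n] (1 / 2) ∧
    (tent s)^[n] (1 / 2) ≤ s / 2 := by
  have hs1 := K.one_lt
  have hs2 := K.s_lt
  induction n, hn using Nat.le_induction with
  | base =>
    rw [K.c_one]
    refine ⟨?_, le_rfl⟩
    nlinarith
  | succ n hn ih =>
    rw [Function.iterate_succ_apply']
    set x := (tent s)^[n] (1 / 2)
    unfold tent
    have h1 : 0 ≤ s * (1 - s / 2) := by nlinarith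
    rcases le_total x (1 / 2) with h | h
    · rw [min_eq_left (by linarith)]
      constructor
      · nlinarith [ih.1]
      · nlinarith
    · rw [min_eq_right (by linarith)]
      constructor
      · nlinarith [ih.2]
      · nlinarith

/-- monotone branches do not cross the turning point -/
lemma no_cross {J : Set ℝ} {n : ℕ} (hJ : J.OrdConnected) (hinj : InjOn (tent s)^[n] J) {i : ℕ}
    (hi : i < n) {x y : ℝ} (hx : x ∈ J) (hy : y ∈ J) :
    ¬ ((tent s)^[i] x < 1 / 2 ∧ 1 / 2 < (tent s)^[i] y) := by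
  rintro ⟨h1, h2⟩
  set δ := min (1 / 2 - (tent s)^[i] x) ((tent s)^[i] y - 1 / 2) with hδ
  have hδ0 : 0 < δ := lt_min (by linarith) (by linarith)
  have hδ1 : δ ≤ 1 / 2 - (tent s)^[i] x := min_le_left _ _
  have hδ2 : δ ≤ (tent s)^[i] y - 1 / 2 := min_le_right _ _
  have hcont : ContinuousOn (tent s)^[i] (uIcc x y) := ((tent_cont s).iterate i).continuousOn
  have hsub : uIcc x y ⊆ J := by
    intro z hz
    exact hJ.uIcc_subset hx hy hz
  have hivt := intermediate_value_uIcc hcont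
  obtain ⟨x1, hx1, hx1'⟩ := hivt (show 1 / 2 - δ ∈ uIcc ((tent s)^[i] x) ((tent s)^[i] y) by
    rw [uIcc_of_le (by linarith)]
    constructor <;> linarith)
  obtain ⟨x2, hx2, hx2'⟩ := hivt (show 1 / 2 + δ ∈ uIcc ((tent s)^[i] x) ((tent s)^[i] y) by
    rw [uIcc_of_le (by linarith)]
    constructor <;> linarith)
  have h3 : (tent s)^[i + 1] x1 = (tent s)^[i + 1] x2 := by
    rw [Function.iterate_succ_apply', Function.iterate_succ_apply', hx1', hx2']
    unfold tent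
    rw [min_eq_left (by linarith), min_eq_right (by linarith)]
    ring
  obtain ⟨k, rfl⟩ : ∃ k, n = k + (i + 1) := ⟨n - (i + 1), by omega⟩
  have h4 : x1 = x2 := by
    apply hinj (hsub hx1) (hsub hx2)
    rw [Function.iterate_add_apply (tent s) k (i + 1) x1,
      Function.iterate_add_apply (tent s) k (i + 1) x2, h3]
  rw [h4, hx2'] at hx1'
  linarith

/-- signed expansion along a monotone branch -/
lemma branch {J : Set ℝ} {n : ℕ} (hJ : J.OrdConnected) (hinj : InjOn (tent s)^[n] J)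
    (hc : tent s (1 / 2) ∈ J) {z : ℝ} (hz : z ∈ J) (i : ℕ) (hi : i ≤ n) :
    (tent s)^[i] z - (tent s)^[i + 1] (1 / 2) = pr 1 i * s ^ i * (z - tent s (1 / 2)) := by
  induction i with
  | zero => simp [pr]
  | succ i ih =>
    have h1 := ih (by omega)
    have h2 : pr 1 (i + 1) = pr 1 i * sr (W 0 (i + 1)) := by
      unfold pr
      rw [Finset.prod_range_succ, add_comm 1 i]
    have h3 := K.no_cross hJ hinj (show i < n by omega) hz hc
    have h4 := K.no_cross hJ hinj (show i < n by omega) hc hz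
    rw [← Function.iterate_succ_apply] at h3 h4
    rw [h2, pow_succ, Function.iterate_succ_apply', Function.iterate_succ_apply' (tent s) (i + 1)]
    have hk := K.h (i + 1) (by omega)
    rcases hW : W 0 (i + 1) with _ | _
    · have h5 := hk.2.1 hW
      have h6 : (tent s)^[i] z ≤ 1 / 2 := by
        by_contra hcon
        push Not at hcon
        exact h4 ⟨h5, hcon⟩
      have e1 : tent s ((tent s)^[i] z) = s * (tent s)^[i] z := tent_low h6
      have e2 : tent s ((tent s)^[i + 1] (1 / 2)) = s * (tent s)^[i + 1] (1 / 2) := tent_low h5.le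
      rw [e1, e2]
      simp only [sr, Bool.false_eq_true, if_false]
      linear_combination s * h1
    · have h5 := hk.1.1 hW
      have h6 : 1 / 2 ≤ (tent s)^[i] z := by
        by_contra hcon
        push Not at hcon
        exact h3 ⟨hcon, h5⟩
      have e1 : tent s ((tent s)^[i] z) = s * (1 - (tent s)^[i] z) := tent_high h6
      have e2 : tent s ((tent s)^[i + 1] (1 / 2)) = s * (1 - (tent s)^[i + 1] (1 / 2)) :=
        tent_high h5.le
      rw [e1, e2]
      simp only [sr, if_true]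
      linear_combination (-s) * h1

/-- the left side of a monotone branch is short -/
lemma left_short {J : Set ℝ} {n : ℕ} (hJ : J.OrdConnected) (hinj : InjOn (tent s)^[n] J)
    (hc : tent s (1 / 2) ∈ J) {z : ℝ} (hz : z ∈ J) (hzc : z ≤ tent s (1 / 2)) {k : ℕ}
    (hk1 : Sx k < n + 1) (hk2 : n + 1 ≤ Sx (k + 1)) :
    |(tent s)^[n] z - (tent s)^[n + 1] (1 / 2)| ≤
      |(tent s)^[Sx (k + 1)] (1 / 2) - (tent s)^[Sx (Qx (k + 1))] (1 / 2)| := by
  have hS := Sx_pos k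
  have hs := K.one_lt
  have hR := Sx_R k
  have hsucc := Sx_succ k
  obtain ⟨a, ha⟩ : ∃ a, Sx k = a + 1 := ⟨Sx k - 1, by omega⟩
  obtain ⟨j, hj⟩ : ∃ j, n + 1 = Sx k + j := ⟨n + 1 - Sx k, by omega⟩
  have hj1 : 1 ≤ j := by omega
  have hjr : j ≤ Sx (Qx (k + 1)) := by omega
  have hpr : pr 1 (a + 1) = -1 := by
    rw [← ha, pr_CP, CP_Sx]; simp
  have hpr2 : pr 1 (a + 1) = pr 1 a * sr (W 0 (a + 1)) := by
    unfold pr
    rw [Finset.prod_range_succ, add_comm 1 a]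
  have h1 := K.branch hJ hinj hc hz a (by omega)
  have hsa : 0 < s ^ a := by positivity
  -- position after `a` steps
  have h2 : |(tent s)^[a] z - (tent s)^[a + 1] (1 / 2)| ≤ |(tent s)^[a + 1] (1 / 2) - 1 / 2| := by
    have h3 := K.no_cross hJ hinj (show a < n by omega) hz hc
    have h4 := K.no_cross hJ hinj (show a < n by omega) hc hz
    rw [← Function.iterate_succ_apply] at h3 h4
    have hk := K.h (a + 1) (by omega)
    rcases hW : W 0 (a + 1) with _ | _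
    · have h5 := hk.2.1 hW
      have h6 : (tent s)^[a] z ≤ 1 / 2 := by
        by_contra hcon
        push Not at hcon
        exact h4 ⟨h5, hcon⟩
      have h7 : pr 1 a = -1 := by
        rw [hpr2, hW] at hpr
        simpa [sr] using hpr
      have h8 : 0 ≤ (tent s)^[a] z - (tent s)^[a + 1] (1 / 2) := by
        rw [h1, h7]; nlinarith
      rw [abs_of_nonneg h8, abs_of_neg (by linarith)]
      linarith
    · have h5 := hk.1.1 hW
      have h6 : 1 / 2 ≤ (tent s)^[a] z := by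
        by_contra hcon
        push Not at hcon
        exact h3 ⟨hcon, h5⟩
      have h7 : pr 1 a = 1 := by
        rw [hpr2, hW] at hpr
        simpa [sr] using hpr
      have h8 : (tent s)^[a] z - (tent s)^[a + 1] (1 / 2) ≤ 0 := by
        rw [h1, h7]; nlinarith
      rw [abs_of_nonpos h8, abs_of_pos (by linarith)]
      linarith
  -- expansion
  have hn := K.branch hJ hinj hc hz n le_rfl
  have h9 : |(tent s)^[n] z - (tent s)^[n + 1] (1 / 2)| =
      s ^ j * |(tent s)^[a] z - (tent s)^[a + 1] (1 / 2)| := by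
    have hnaj : n = j + a := by omega
    rw [hn, h1, abs_mul, abs_mul, abs_mul, abs_mul, pr_abs, pr_abs, abs_pow, abs_pow,
      abs_of_pos (show 0 < s by linarith), hnaj, pow_add]
    ring
  have h10 := K.agree0 (n := Sx k) (r := j) hS hj1 fun i hi1 hi2 => hR.2.1 i hi1 (by omega)
  have h11 := K.agree (Sx (Qx (k + 1)) - j) (Sx k + j) j (by omega) hj1 fun i hi => by
    rw [add_assoc]
    exact hR.2.1 (j + i) (by omega) (by omega)
  rw [show Sx k + j + (Sx (Qx (k + 1)) - j) = Sx (k + 1) by omega,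
    show j + (Sx (Qx (k + 1)) - j) = Sx (Qx (k + 1)) by omega] at h11
  have h12 : 1 ≤ s ^ (Sx (Qx (k + 1)) - j) := one_le_pow₀ hs.le
  rw [h9, ← h11]
  calc s ^ j * |(tent s)^[a] z - (tent s)^[a + 1] (1 / 2)|
      ≤ s ^ j * |(tent s)^[Sx k] (1 / 2) - 1 / 2| := by
        rw [ha]
        exact mul_le_mul_of_nonneg_left h2 (by positivity)
    _ = |(tent s)^[Sx k + j] (1 / 2) - (tent s)^[j] (1 / 2)| := h10
    _ ≤ s ^ (Sx (Qx (k + 1)) - j) * |(tent s)^[Sx k + j] (1 / 2) - (tent s)^[j] (1 / 2)| :=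
        le_mul_of_one_le_left (abs_nonneg _) h12

lemma Sx_near (k : ℕ) : |(tent s)^[Sx k] (1 / 2) - 1 / 2| ≤ 1 / s ^ (Sx (Qx (k + 1))) := by
  have hR := Sx_R k
  have h := K.agree0 (Sx_pos k) hR.1 hR.2.1
  have hs : 0 < s ^ (Sx (Qx (k + 1))) := by have := K.one_lt; positivity
  rw [le_div_iff₀ hs, mul_comm, h]
  exact K.dist_le _ _

lemma small_diff {ε : ℝ} (hε : 0 < ε) : ∃ k₀, ∀ k, k₀ ≤ k →
    |(tent s)^[Sx (k + 1)] (1 / 2) - (tent s)^[Sx (Qx (k + 1))] (1 / 2)| < ε := by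
  have hs := K.one_lt
  obtain ⟨N, hN⟩ := pow_unbounded_of_one_lt (2 / ε) hs
  have hsmall : ∀ k, N ≤ Sx (Qx (k + 1)) → |(tent s)^[Sx k] (1 / 2) - 1 / 2| < ε / 2 := by
    intro k hk
    refine (K.Sx_near k).trans_lt ?_
    have h2 : s ^ N ≤ s ^ (Sx (Qx (k + 1))) := pow_le_pow_right₀ hs.le hk
    have h3 : 0 < s ^ (Sx (Qx (k + 1))) := by positivity
    rw [div_lt_iff₀ h3]
    rw [div_lt_iff₀ hε] at hN
    nlinarith
  have hid : ∀ k, k ≤ Sx k := Sx_strict.id_le
  refine ⟨N + 30, fun k hk => ?_⟩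
  have h1 := Qx_ge (k + 1)
  have h2 := Qx_ge (k + 1 + 1)
  have h3 := Qx_ge (Qx (k + 1) + 1)
  have h4 := hsmall (k + 1) (by have := hid (Qx (k + 1 + 1)); omega)
  have h5 := hsmall (Qx (k + 1)) (by have := hid (Qx (Qx (k + 1) + 1)); omega)
  calc |(tent s)^[Sx (k + 1)] (1 / 2) - (tent s)^[Sx (Qx (k + 1))] (1 / 2)|
      = |((tent s)^[Sx (k + 1)] (1 / 2) - 1 / 2) -
          ((tent s)^[Sx (Qx (k + 1))] (1 / 2) - 1 / 2)| := by congr 1; ring
    _ ≤ |(tent s)^[Sx (k + 1)] (1 / 2) - 1 / 2| +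
          |(tent s)^[Sx (Qx (k + 1))] (1 / 2) - 1 / 2| := abs_sub _ _
    _ < ε := by linarith

/-- only finitely many monotone pull backs of neighbourhoods of a fixed size along the critical
orbit -/
theorem persistent {ε : ℝ} (hε : 0 < ε) : {n : ℕ | ∃ J : Set ℝ, J.OrdConnected ∧ J ⊆ Icc 0 1 ∧
    tent s (1 / 2) ∈ J ∧ InjOn (tent s)^[n] J ∧
    Icc 0 1 ∩ Ioo ((tent s)^[n + 1] (1 / 2) - ε) ((tent s)^[n + 1] (1 / 2) + ε) ⊆
      (tent s)^[n] '' J}.Finite := by
  have hs1 := K.one_lt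
  have hs2 := K.s_lt
  set ρ := min (s * (1 - s / 2)) (1 - s / 2) with hρ
  have hρ0 : 0 < ρ := lt_min (by nlinarith) (by linarith)
  have hρ1 : ρ ≤ s * (1 - s / 2) := min_le_left _ _
  have hρ2 : ρ ≤ 1 - s / 2 := min_le_right _ _
  set ε' := min ε ρ / 2 with hε'
  have hm : 0 < min ε ρ := lt_min hε hρ0
  have hm1 : min ε ρ ≤ ε := min_le_left _ _
  have hm2 : min ε ρ ≤ ρ := min_le_right _ _
  obtain ⟨k₀, hk₀⟩ := K.small_diff (show 0 < ε' by linarith)
  refine (finite_lt_nat (Sx k₀)).subset ?_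
  rintro n ⟨J, hJ, -, hc, hinj, hU⟩
  show n < Sx k₀
  by_contra hcon
  push Not at hcon
  -- the index `k`
  obtain ⟨k, hk, hk1, hk2⟩ : ∃ k, k₀ ≤ k ∧ Sx k < n + 1 ∧ n + 1 ≤ Sx (k + 1) := by
    have hex : ∃ k, n + 1 ≤ Sx (k + 1) := ⟨n, Sx_strict.id_le (n + 1)⟩
    classical
    refine ⟨Nat.find hex, ?_, ?_, Nat.find_spec hex⟩
    · by_contra h
      push Not at h
      have h1 := Nat.find_spec hex
      have h2 : Sx (Nat.find hex + 1) ≤ Sx k₀ := Sx_strict.monotone h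
      omega
    · rcases Nat.eq_zero_or_pos (Nat.find hex) with h0 | hpos
      · rw [h0]
        have h2 : Sx 0 ≤ Sx k₀ := Sx_strict.monotone (by omega)
        omega
      · have h1 := Nat.find_min hex (show Nat.find hex - 1 < Nat.find hex by omega)
        rw [Nat.sub_add_cancel hpos] at h1
        omega
  have hshort : ∀ z ∈ J, z ≤ tent s (1 / 2) →
      |(tent s)^[n] z - (tent s)^[n + 1] (1 / 2)| < ε' := fun z hz hzc =>
    (K.left_short hJ hinj hc hz hzc hk1 hk2).trans_lt (hk₀ k hk)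
  obtain ⟨hb1, hb2⟩ := K.orb_bd (n + 1) (by omega)
  set cN := (tent s)^[n + 1] (1 / 2) with hcN
  obtain ⟨zp, hzp, hzp'⟩ := hU (show cN + ε' ∈ _ from
    ⟨⟨by linarith, by linarith⟩, ⟨by linarith, by linarith⟩⟩)
  obtain ⟨zm, hzm, hzm'⟩ := hU (show cN - ε' ∈ _ from
    ⟨⟨by linarith, by linarith⟩, ⟨by linarith, by linarith⟩⟩)
  have hzp1 : tent s (1 / 2) < zp := by
    by_contra h
    push Not at h
    have := hshort zp hzp h
    rw [hzp'] at this
    rw [show cN + ε' - cN = ε' by ring, abs_of_pos (by linarith)] at this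
    exact lt_irrefl _ this
  have hzm1 : tent s (1 / 2) < zm := by
    by_contra h
    push Not at h
    have := hshort zm hzm h
    rw [hzm'] at this
    rw [show cN - ε' - cN = -ε' by ring, abs_neg, abs_of_pos (by linarith)] at this
    exact lt_irrefl _ this
  have hcont : ContinuousOn (tent s)^[n] (uIcc zm zp) := ((tent_cont s).iterate n).continuousOn
  obtain ⟨x, hx, hx'⟩ := intermediate_value_uIcc hcont
    (show cN ∈ uIcc ((tent s)^[n] zm) ((tent s)^[n] zp) by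
      rw [hzm', hzp', uIcc_of_le (by linarith)]
      constructor <;> linarith)
  have hxJ : x ∈ J := hJ.uIcc_subset hzm hzp hx
  have hx1 : x = tent s (1 / 2) := by
    apply hinj hxJ hc
    rw [hx', hcN, Function.iterate_succ_apply]
  have hx2 : min zm zp ≤ x := by
    rw [uIcc, mem_Icc] at hx
    exact hx.1
  have hx3 : tent s (1 / 2) < min zm zp := lt_min hzm1 hzp1
  linarith

end Kn

end Pool.Agent.R571.TO
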