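import Pool.Agent.R571.TO.Tent

/-! Metric consequences. -/

namespace Pool.Agent.R571.TO

open Set Filter Topology

/-- the omega-limit set -/
def omega (f : ℝ → ℝ) (c : ℝ) : Set ℝ := ⋂ N : ℕ, closure {y | ∃ n : ℕ, N ≤ n ∧ y = f^[n] c}

lemma mem_omega {f : ℝ → ℝ} {c w : ℝ} : w ∈ omega f c ↔
    ∀ (N : ℕ) (ε : ℝ), 0 < ε → ∃ n, N ≤ n ∧ |f^[n] c - w| < ε := by
  unfold omega
  rw [mem_iInter]
  refine forall_congr' fun N => ?_
  rw [Metric.mem_closure_iff]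
  constructor
  · intro h ε hε
    obtain ⟨_, ⟨n, hn, rfl⟩, h2⟩ := h ε hε
    refine ⟨n, hn, ?_⟩
    rwa [dist_comm, Real.dist_eq] at h2
  · intro h ε hε
    obtain ⟨n, hn, h2⟩ := h ε hε
    exact ⟨_, ⟨n, hn, rfl⟩, by rwa [dist_comm, Real.dist_eq]⟩

section

variable {s : ℝ}

lemma tent_cont (s : ℝ) : Continuous (tent s) := by unfold tent; fun_prop

lemma tent_lip (hs0 : 0 ≤ s) (hs : s ≤ 2) (x y : ℝ) : |tent s x - tent s y| ≤ 2 * |x - y| := by
  unfold tent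
  rw [← mul_sub, abs_mul, abs_of_nonneg hs0]
  have h := abs_min_sub_min_le_max x (1 - x) y (1 - y)
  have e : 1 - x - (1 - y) = -(x - y) := by ring
  rw [e, abs_neg, max_self] at h
  calc s * |min x (1 - x) - min y (1 - y)| ≤ 2 * |x - y| :=
    mul_le_mul hs h (abs_nonneg _) (by norm_num)

lemma iter_lip (hs0 : 0 ≤ s) (hs : s ≤ 2) (t : ℕ) (x y : ℝ) :
    |(tent s)^[t] x - (tent s)^[t] y| ≤ 2 ^ t * |x - y| := by
  induction t generalizing x y with
  | zero => simp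
  | succ t ih =>
    rw [Function.iterate_succ_apply, Function.iterate_succ_apply]
    refine (ih _ _).trans ?_
    have := tent_lip hs0 hs x y
    rw [pow_succ, mul_assoc]
    exact mul_le_mul_of_nonneg_left this (by positivity)

lemma tent_same (hs0 : 0 ≤ s) {x y : ℝ} (h : (x ≤ 1 / 2 ∧ y ≤ 1 / 2) ∨ (1 / 2 ≤ x ∧ 1 / 2 ≤ y)) :
    |tent s x - tent s y| = s * |x - y| := by
  unfold tent
  rw [← mul_sub, abs_mul, abs_of_nonneg hs0]
  congr 1
  rcases h with ⟨h1, h2⟩ | ⟨h1, h2⟩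
  · rw [min_eq_left (by linarith), min_eq_left (by linarith)]
  · rw [min_eq_right (by linarith), min_eq_right (by linarith), ← abs_neg]
    congr 1
    ring

lemma tent_maps (hs0 : 0 ≤ s) (hs : s ≤ 2) : MapsTo (tent s) (Icc 0 1) (Icc 0 1) := by
  intro x hx
  unfold tent
  have h1 : 0 ≤ min x (1 - x) := le_min hx.1 (by linarith [hx.2])
  have h2 : min x (1 - x) ≤ 1 / 2 := by
    rcases le_total x (1 / 2) with h | h
    · exact (min_le_left _ _).trans h
    · exact (min_le_right _ _).trans (by linarith)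
  constructor
  · positivity
  · nlinarith

/-- hypothesis: the kneading sequence of the tent map of slope `s` is `W 0` -/
structure Kn (s : ℝ) : Prop where
  h1 : √2 < s
  h2 : s ≤ 2
  h : ∀ n, 1 ≤ n → (W 0 n = true ↔ 1 / 2 < (tent s)^[n] (1 / 2)) ∧
    (W 0 n = false ↔ (tent s)^[n] (1 / 2) < 1 / 2)

namespace Kn

variable (K : Kn s)
include K

lemma one_lt : 1 < s := by
  have := K.h1
  have h1 : (1:ℝ) < √2 := by rw [Real.lt_sqrt (by norm_num)]; norm_num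
  linarith

lemma pos : 0 ≤ s := by linarith [K.one_lt]

lemma orb_mem (n : ℕ) : (tent s)^[n] (1 / 2) ∈ Icc (0:ℝ) 1 :=
  (tent_maps K.pos K.h2).iterate n ⟨by norm_num, by norm_num⟩

lemma dist_le (a b : ℕ) : |(tent s)^[a] (1 / 2) - (tent s)^[b] (1 / 2)| ≤ 1 := by
  have h1 := K.orb_mem a
  have h2 := K.orb_mem b
  rw [abs_le]
  constructor <;> linarith [h1.1, h1.2, h2.1, h2.2]

lemma ne (n : ℕ) (hn : 1 ≤ n) : (tent s)^[n] (1 / 2) ≠ 1 / 2 := by
  have h := K.h n hn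
  rcases hW : W 0 n with _ | _
  · exact (h.2.1 hW).ne
  · exact (h.1.1 hW).ne'

lemma same {a b : ℕ} (ha : 1 ≤ a) (hb : 1 ≤ b) (h : W 0 a = W 0 b) :
    ((tent s)^[a] (1 / 2) ≤ 1 / 2 ∧ (tent s)^[b] (1 / 2) ≤ 1 / 2) ∨
      (1 / 2 ≤ (tent s)^[a] (1 / 2) ∧ 1 / 2 ≤ (tent s)^[b] (1 / 2)) := by
  rcases hW : W 0 a with _ | _
  · left
    exact ⟨((K.h a ha).2.1 hW).le, ((K.h b hb).2.1 (by rw [← h, hW])).le⟩
  · right
    exact ⟨((K.h a ha).1.1 hW).le, ((K.h b hb).1.1 (by rw [← h, hW])).le⟩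

lemma agree (k : ℕ) : ∀ a b, 1 ≤ a → 1 ≤ b → (∀ i < k, W 0 (a + i) = W 0 (b + i)) →
    s ^ k * |(tent s)^[a] (1 / 2) - (tent s)^[b] (1 / 2)| =
      |(tent s)^[a + k] (1 / 2) - (tent s)^[b + k] (1 / 2)| := by
  induction k with
  | zero => intro a b _ _ _; simp
  | succ k ih =>
    intro a b ha hb h
    have h1 := ih (a + 1) (b + 1) (by omega) (by omega) (fun i hi => by
      have := h (i + 1) (by omega)
      rwa [show a + (i + 1) = a + 1 + i by ring, show b + (i + 1) = b + 1 + i by ring] at this)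
    have h2 := tent_same K.pos (K.same ha hb (by simpa using h 0 (by omega)))
    rw [← Function.iterate_succ_apply' (tent s) a, ← Function.iterate_succ_apply' (tent s) b] at h2
    rw [show a + (k + 1) = a + 1 + k by ring, show b + (k + 1) = b + 1 + k by ring, ← h1,
      show a + 1 = a.succ from rfl, show b + 1 = b.succ from rfl, h2, pow_succ]
    ring

/-- comparison with the turning point -/
lemma agree0 {n r : ℕ} (hn : 1 ≤ n) (hr : 1 ≤ r) (h : ∀ i, 1 ≤ i → i < r → W 0 (n + i) = W 0 i) :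
    s ^ r * |(tent s)^[n] (1 / 2) - 1 / 2| =
      |(tent s)^[n + r] (1 / 2) - (tent s)^[r] (1 / 2)| := by
  obtain ⟨r, rfl⟩ : ∃ r', r = r' + 1 := ⟨r - 1, by omega⟩
  have h1 := K.agree r (n + 1) 1 (by omega) le_rfl (fun i hi => by
    have := h (i + 1) (by omega) (by omega)
    rwa [show n + 1 + i = n + (i + 1) by ring, add_comm 1 i])
  have h2 : |tent s ((tent s)^[n] (1 / 2)) - tent s (1 / 2)| =
      s * |(tent s)^[n] (1 / 2) - 1 / 2| := by
    apply tent_same K.pos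
    rcases le_total ((tent s)^[n] (1 / 2)) (1 / 2) with h | h
    · exact Or.inl ⟨h, le_rfl⟩
    · exact Or.inr ⟨h, le_rfl⟩
  rw [← Function.iterate_succ_apply' (tent s) n] at h2
  rw [Function.iterate_one] at h1
  rw [show n + (r + 1) = n + 1 + r by ring, show r + 1 = 1 + r by ring, ← h1, h2,
    show 1 + r = r + 1 by ring, pow_succ]
  ring

lemma inZ_agree {m n i : ℕ} (hn : InZ m n) (hi : 1 ≤ i) (hi2 : i < 10 ^ m) :
    W 0 (n + i) = W 0 i := by
  obtain ⟨q, rfl, hq⟩ := hn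
  have := (toep m 0 q 0 i (by rw [hq, chi_zero]) hi2).1 hi
  rwa [mul_zero, zero_add] at this

/-- points of `Z_m` are close to the turning point -/
lemma near {m n : ℕ} (hn1 : 1 ≤ n) (hn : InZ m n) :
    s ^ (10 ^ m) * |(tent s)^[n] (1 / 2) - 1 / 2| ≤ 1 := by
  rw [K.agree0 hn1 (Nat.one_le_pow _ _ (by norm_num)) fun i hi1 hi2 => K.inZ_agree hn hi1 hi2]
  exact K.dist_le _ _

/-- points with early difference are far from the turning point -/
lemma far (N : ℕ) : ∃ η : ℝ, 0 < η ∧ ∀ n r, 1 ≤ n → r ≤ N → IsR n r →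
    η ≤ |(tent s)^[n] (1 / 2) - 1 / 2| := by
  have hmin : ∃ μ : ℝ, 0 < μ ∧ ∀ r, 1 ≤ r → r ≤ N → μ ≤ |(tent s)^[r] (1 / 2) - 1 / 2| := by
    induction N with
    | zero => exact ⟨1, one_pos, fun r h1 h2 => by omega⟩
    | succ N ih =>
      obtain ⟨μ, h1, h2⟩ := ih
      refine ⟨min μ |(tent s)^[N + 1] (1 / 2) - 1 / 2|, lt_min h1 ?_, ?_⟩
      · exact abs_pos.2 (sub_ne_zero.2 (K.ne _ (by omega)))
      · intro r hr1 hr2
        rcases Nat.lt_or_ge r (N + 1) with h3 | h3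
        · exact (min_le_left _ _).trans (h2 r hr1 (by omega))
        · obtain rfl : r = N + 1 := by omega
          exact min_le_right _ _
  obtain ⟨μ, hμ, h1⟩ := hmin
  refine ⟨μ / 2 ^ N, by positivity, fun n r hn hr hR => ?_⟩
  obtain ⟨hr1, hr2, hr3⟩ := hR
  have h2 := K.agree0 hn hr1 hr2
  have h3 := h1 r hr1 hr
  have h4 : |(tent s)^[r] (1 / 2) - 1 / 2| ≤
      |(tent s)^[n + r] (1 / 2) - (tent s)^[r] (1 / 2)| := by
    rcases hc : W 0 r with _ | _
    · have hd : W 0 (n + r) = true := by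
        rw [hc] at hr3; simpa using hr3
      have h5 := (K.h r hr1).2.1 hc
      have h6 := (K.h (n + r) (by omega)).1.1 hd
      rw [abs_of_neg (by linarith), abs_of_pos (by linarith)]
      linarith
    · have hd : W 0 (n + r) = false := by
        rw [hc] at hr3; simpa using hr3
      have h5 := (K.h r hr1).1.1 hc
      have h6 := (K.h (n + r) (by omega)).2.1 hd
      rw [abs_of_pos (by linarith), abs_of_neg (by linarith)]
      linarith
  have h7 : s ^ r ≤ 2 ^ N := by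
    calc s ^ r ≤ 2 ^ r := pow_le_pow_left₀ K.pos K.h2 r
      _ ≤ 2 ^ N := pow_le_pow_right₀ (by norm_num) hr
  rw [div_le_iff₀ (by positivity)]
  have h8 : s ^ r * |(tent s)^[n] (1 / 2) - 1 / 2| ≤ 2 ^ N * |(tent s)^[n] (1 / 2) - 1 / 2| :=
    mul_le_mul_of_nonneg_right h7 (abs_nonneg _)
  linarith

lemma not_inZ_add {m n i : ℕ} (hn : InZ m n) (hi : 1 ≤ i) (hi2 : i < 10 ^ m) :
    ¬ InZ m (n + i) := by
  obtain ⟨q, rfl, -⟩ := hn
  rintro ⟨q', h, -⟩
  have h1 : 10 ^ m ∣ 10 ^ m * q + i := ⟨q', h⟩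
  have h2 : 10 ^ m ∣ i := (Nat.dvd_add_right (dvd_mul_right _ _)).1 h1
  exact absurd (Nat.le_of_dvd hi h2) (by omega)

/-- separation of `Z_m` and its complement -/
lemma sep (m : ℕ) (hm : 1 ≤ m) : ∃ δ : ℝ, 0 < δ ∧ ∀ n n', 1 ≤ n → 1 ≤ n' → InZ m n →
    ¬ InZ m n' → δ ≤ |(tent s)^[n] (1 / 2) - (tent s)^[n'] (1 / 2)| := by
  obtain ⟨η, hη, hfar⟩ := K.far (3 * 10 ^ (m - 1))
  refine ⟨η / 2 ^ (3 * 10 ^ (m - 1)), by positivity, fun n n' hn hn' hz hz' => ?_⟩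
  obtain ⟨r, ⟨hr1, -, hr3⟩, -, -, hr4⟩ := first_diff n' hn'
  have hrN := hr4 m hm hz'
  have hpow : 3 * 10 ^ (m - 1) < 10 ^ m := by
    obtain ⟨k, rfl⟩ : ∃ k, m = k + 1 := ⟨m - 1, by omega⟩
    have : 0 < 10 ^ k := by positivity
    rw [Nat.add_sub_cancel, pow_succ]
    omega
  have h1 := K.inZ_agree hz hr1 (by omega)
  have h2 := K.not_inZ_add hz hr1 (by omega)
  obtain ⟨r', hR', -, -, hr4'⟩ := first_diff (n + r) (by omega)
  have h3 := hfar (n + r) r' (by omega) (hr4' m hm h2) hR'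
  have h4 : |(tent s)^[n + r] (1 / 2) - 1 / 2| ≤
      |(tent s)^[n + r] (1 / 2) - (tent s)^[n' + r] (1 / 2)| := by
    rcases hc : W 0 r with _ | _
    · rw [hc] at hr3 h1
      have hd : W 0 (n' + r) = true := by simpa using hr3
      have h5 := (K.h (n + r) (by omega)).2.1 h1
      have h6 := (K.h (n' + r) (by omega)).1.1 hd
      rw [abs_of_neg (by linarith), abs_of_neg (by linarith)]
      linarith
    · rw [hc] at hr3 h1
      have hd : W 0 (n' + r) = false := by simpa using hr3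
      have h5 := (K.h (n + r) (by omega)).1.1 h1
      have h6 := (K.h (n' + r) (by omega)).2.1 hd
      rw [abs_of_pos (by linarith), abs_of_pos (by linarith)]
      linarith
  have h5 := iter_lip K.pos K.h2 r ((tent s)^[n] (1 / 2)) ((tent s)^[n'] (1 / 2))
  rw [← Function.iterate_add_apply, ← Function.iterate_add_apply, add_comm r n,
    add_comm r n'] at h5
  have h6 : (2:ℝ) ^ r ≤ 2 ^ (3 * 10 ^ (m - 1)) := pow_le_pow_right₀ (by norm_num) hrN
  rw [div_le_iff₀ (by positivity)]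
  have h7 := mul_le_mul_of_nonneg_right h6
    (abs_nonneg ((tent s)^[n] (1 / 2) - (tent s)^[n'] (1 / 2)))
  linarith

lemma gap (m n : ℕ) : ∃ t, 1 ≤ t ∧ t ≤ 2 * 10 ^ m ∧ InZ m (n + t) := by
  have hp : 0 < 10 ^ m := by positivity
  set q := n / 10 ^ m with hq
  have h1 : 10 ^ m * q ≤ n := Nat.mul_div_le n _
  have h2 : n < 10 ^ m * (q + 1) := by
    have := Nat.lt_mul_div_succ n hp
    exact this
  have h3 : 10 ^ m * (q + 2) = 10 ^ m * (q + 1) + 10 ^ m := by ring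
  have h4 : 10 ^ m * (q + 1) = 10 ^ m * q + 10 ^ m := by ring
  rcases hc : chi (q + 1) with _ | _
  · refine ⟨10 ^ m * (q + 2) - n, by omega, by omega, q + 2, by omega, chi_next (q + 1) hc⟩
  · exact ⟨10 ^ m * (q + 1) - n, by omega, by omega, q + 1, by omega, hc⟩

lemma exists_small {ε : ℝ} (hε : 0 < ε) : ∃ m₀, ∀ m, m₀ ≤ m → 1 / s ^ (10 ^ m) < ε := by
  obtain ⟨k, hk⟩ := pow_unbounded_of_one_lt (1 / ε) K.one_lt
  refine ⟨k, fun m hm => ?_⟩
  have h1 : m < 10 ^ m := Nat.lt_pow_self (by norm_num)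
  have h2 : s ^ k ≤ s ^ (10 ^ m) := pow_le_pow_right₀ K.one_lt.le (by omega)
  have h3 : 0 < s ^ (10 ^ m) := by have := K.one_lt; positivity
  rw [div_lt_iff₀ hε] at hk
  rw [div_lt_iff₀ h3]
  nlinarith

lemma near' {m n : ℕ} (hn1 : 1 ≤ n) (hn : InZ m n) :
    |(tent s)^[n] (1 / 2) - 1 / 2| ≤ 1 / s ^ (10 ^ m) := by
  have h := K.near hn1 hn
  have h3 : 0 < s ^ (10 ^ m) := by have := K.one_lt; positivity
  rw [le_div_iff₀ h3]
  linarith

lemma inZ_ten (m k : ℕ) : InZ m (k * 10 ^ (m + 1)) := ⟨10 * k, by ring, chi_ten k⟩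

lemma c_mem : (1 / 2 : ℝ) ∈ omega (tent s) (1 / 2) := by
  rw [mem_omega]
  intro N ε hε
  obtain ⟨m, hm⟩ := K.exists_small hε
  have hp : 0 < 10 ^ (m + 1) := by positivity
  refine ⟨(N + 1) * 10 ^ (m + 1), by nlinarith, ?_⟩
  exact (K.near' (by nlinarith) (K.inZ_ten m (N + 1))).trans_lt (hm m le_rfl)

lemma recur {w : ℝ} (hw : w ∈ omega (tent s) (1 / 2)) (N : ℕ) {ε : ℝ} (hε : 0 < ε) :
    ∃ n, N ≤ n ∧ |(tent s)^[n] w - 1 / 2| < ε := by
  obtain ⟨m, hm⟩ := K.exists_small (half_pos hε)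
  have hP : (0:ℝ) < 2 ^ (N + 2 * 10 ^ m) := by positivity
  obtain ⟨n, hn, hnw⟩ := mem_omega.1 hw 1 (ε / 2 / 2 ^ (N + 2 * 10 ^ m)) (by positivity)
  obtain ⟨t, ht1, ht2, ht3⟩ := K.gap m (n + N)
  refine ⟨N + t, by omega, ?_⟩
  have h1 := iter_lip K.pos K.h2 (N + t) w ((tent s)^[n] (1 / 2))
  rw [← Function.iterate_add_apply, show N + t + n = n + N + t by ring] at h1
  have h2 := K.near' (by omega) ht3
  have h3 := hm m le_rfl
  have h4 : (2:ℝ) ^ (N + t) ≤ 2 ^ (N + 2 * 10 ^ m) := pow_le_pow_right₀ (by norm_num) (by omega)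
  rw [abs_sub_comm] at hnw
  rw [lt_div_iff₀ hP] at hnw
  have h5 : 2 ^ (N + t) * |w - (tent s)^[n] (1 / 2)| < ε / 2 :=
    lt_of_le_of_lt (mul_le_mul_of_nonneg_right h4 (abs_nonneg _)) (by linarith)
  calc |(tent s)^[N + t] w - 1 / 2| = |((tent s)^[N + t] w - (tent s)^[n + N + t] (1 / 2)) +
        ((tent s)^[n + N + t] (1 / 2) - 1 / 2)| := by congr 1; ring
    _ ≤ |(tent s)^[N + t] w - (tent s)^[n + N + t] (1 / 2)| +
        |(tent s)^[n + N + t] (1 / 2) - 1 / 2| := abs_add_le _ _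
    _ < ε := by linarith

end Kn

end

end Pool.Agent.R571.TO
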