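import Pool.Agent.R571.TO.Nu

/-! First differences. -/

namespace Pool.Agent.R571.TO

lemma W1 (m : ℕ) : W m 1 = bv m := W_dig m 0 1 (by norm_num) (by norm_num)
lemma W2 (m : ℕ) : W m 2 = al m := W_dig m 0 2 (by norm_num) (by norm_num)
lemma W3 (m : ℕ) : W m 3 = be m := by
  have := W_dig m 0 3 (by norm_num) (by norm_num)
  rw [show 10 * 0 + 3 = 3 from rfl, chi_zero] at this
  rw [this]; rfl
lemma chi1 : chi 1 = false := chi_dig 0 1 (by norm_num)
lemma chi2 : chi 2 = true := chi_dig 0 2 (by norm_num)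
lemma chi3 : chi 3 = true := chi_dig 0 3 (by norm_num)

lemma Ag.one {m q : ℕ} (h : chi q = true) : Ag m q 1 := ⟨h, fun i _ _ => by omega⟩

lemma Ag.two {m q : ℕ} (h : chi q = true) (h1 : W m (q + 1) = bv m) (h2 : chi (q + 1) = false) :
    Ag m q 2 := by
  refine ⟨h, fun i hi1 hi2 => ?_⟩
  obtain rfl : i = 1 := by omega
  rw [W1, chi1]
  exact ⟨h1, h2⟩

lemma Ag.three {m q : ℕ} (h : chi q = true) (h1 : W m (q + 1) = bv m) (h2 : chi (q + 1) = false)
    (h3 : W m (q + 2) = al m) (h4 : chi (q + 2) = true) : Ag m q 3 := by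
  refine ⟨h, fun i hi1 hi2 => ?_⟩
  obtain rfl | rfl : i = 1 ∨ i = 2 := by omega
  · rw [W1, chi1]
    exact ⟨h1, h2⟩
  · rw [W2, chi2]
    exact ⟨h3, h4⟩

/-- the finite check at positive levels -/
lemma fc_pos (m q : ℕ) (hm : 1 ≤ m) (hq : 1 ≤ q) (hc : chi q = true)
    (hz : q % 10 ≠ 0 ∨ chi (q / 10) = false) :
    (∃ j, 1 ≤ j ∧ j ≤ 3 ∧ j < q ∧ Ag m q j ∧ W m (q + j) ≠ W m j) ∨
      (2 ≤ q ∧ Ag m q 1 ∧ W m (q + 1) = W m 1 ∧ chi (q + 1) ≠ chi 1) := by
  obtain ⟨q₁, d, hd, rfl⟩ : ∃ q₁ d, d < 10 ∧ q = 10 * q₁ + d := ⟨q / 10, q % 10, by omega, by omega⟩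
  have hdm : (10 * q₁ + d) % 10 = d := by omega
  have hdd : (10 * q₁ + d) / 10 = q₁ := by omega
  rw [hdm, hdd] at hz
  have C : ∀ e, e < 10 → chi (10 * q₁ + e) = chiT e (chi q₁) := fun e he => chi_dig q₁ e he
  have V : ∀ e, 1 ≤ e → e < 10 → W m (10 * q₁ + e) = tab m e (chi q₁) :=
    fun e he1 he => W_dig m q₁ e he1 he
  have hbeq : be m = !al m := by
    rcases abc m with ⟨h, -⟩ | ⟨-, h1, h2, -⟩ | ⟨-, h1, h2, -⟩
    · omega
    · rw [h1, h2]; rfl
    · rw [h1, h2]; rfl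
  have hbveq : bv m = al m := by
    rcases abc m with ⟨h, -⟩ | ⟨-, h1, -, h2⟩ | ⟨-, h1, -, h2⟩
    · omega
    · rw [h1, h2]
    · rw [h1, h2]
  have hq10 : q₁ = 0 → chi q₁ = true := fun h => by rw [h]; exact chi_zero
  have hcq := hc
  rw [C d hd] at hc
  interval_cases d
  · -- d = 0
    simp only [ne_eq, not_true_eq_false, false_or] at hz
    have hq1 : q₁ ≠ 0 := fun h => by rw [hq10 h] at hz; exact absurd hz (by simp)
    left
    refine ⟨3, by norm_num, le_rfl, by omega, Ag.three hcq ?_ ?_ ?_ ?_, ?_⟩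
    · rw [show 10 * q₁ + 0 + 1 = 10 * q₁ + 1 by ring, V 1 (by norm_num) (by norm_num)]; rfl
    · rw [show 10 * q₁ + 0 + 1 = 10 * q₁ + 1 by ring, C 1 (by norm_num)]; rfl
    · rw [show 10 * q₁ + 0 + 2 = 10 * q₁ + 2 by ring, V 2 (by norm_num) (by norm_num)]; rfl
    · rw [show 10 * q₁ + 0 + 2 = 10 * q₁ + 2 by ring, C 2 (by norm_num)]; rfl
    · rw [show 10 * q₁ + 0 + 3 = 10 * q₁ + 3 by ring, V 3 (by norm_num) (by norm_num), hz, W3]
      simp [tab]
  · simp [chiT] at hc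
  · -- d = 2
    rcases hcase : chi q₁ with _ | _
    · right
      refine ⟨by omega, Ag.one hcq, ?_, ?_⟩
      · rw [show 10 * q₁ + 2 + 1 = 10 * q₁ + 3 by ring, V 3 (by norm_num) (by norm_num), hcase, W1]
        simp [tab, hbeq, hbveq]
      · rw [show 10 * q₁ + 2 + 1 = 10 * q₁ + 3 by ring, C 3 (by norm_num), chi1]
        simp [chiT]
    · left
      refine ⟨1, le_rfl, by norm_num, by omega, Ag.one hcq, ?_⟩
      rw [show 10 * q₁ + 2 + 1 = 10 * q₁ + 3 by ring, V 3 (by norm_num) (by norm_num), hcase, W1]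
      simp [tab, hbeq, hbveq]
  · -- d = 3
    have h1 : W m (10 * q₁ + 3 + 1) = bv m := by
      rw [show 10 * q₁ + 3 + 1 = 10 * q₁ + 4 by ring, V 4 (by norm_num) (by norm_num)]; rfl
    have h2 : chi (10 * q₁ + 3 + 1) = false := by
      rw [show 10 * q₁ + 3 + 1 = 10 * q₁ + 4 by ring, C 4 (by norm_num)]; rfl
    left
    rcases hcase : chi q₁ with _ | _
    · refine ⟨3, by norm_num, le_rfl, ?_, Ag.three hcq h1 h2 ?_ ?_, ?_⟩
      · have : q₁ ≠ 0 := fun h => by rw [hq10 h] at hcase; exact absurd hcase (by simp)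
        omega
      · rw [show 10 * q₁ + 3 + 2 = 10 * q₁ + 5 by ring, V 5 (by norm_num) (by norm_num), hcase]
        simp [tab]
      · rw [show 10 * q₁ + 3 + 2 = 10 * q₁ + 5 by ring, C 5 (by norm_num)]; rfl
      · rw [show 10 * q₁ + 3 + 3 = 10 * q₁ + 6 by ring, V 6 (by norm_num) (by norm_num), hcase, W3]
        simp [tab]
    · refine ⟨2, by norm_num, by norm_num, by omega, Ag.two hcq h1 h2, ?_⟩
      rw [show 10 * q₁ + 3 + 2 = 10 * q₁ + 5 by ring, V 5 (by norm_num) (by norm_num), hcase, W2]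
      simp [tab]
  · simp [chiT] at hc
  · -- d = 5
    rcases hcase : chi q₁ with _ | _
    · right
      refine ⟨by omega, Ag.one hcq, ?_, ?_⟩
      · rw [show 10 * q₁ + 5 + 1 = 10 * q₁ + 6 by ring, V 6 (by norm_num) (by norm_num), hcase, W1]
        simp [tab, hbeq, hbveq]
      · rw [show 10 * q₁ + 5 + 1 = 10 * q₁ + 6 by ring, C 6 (by norm_num), chi1, hcase]
        simp [chiT]
    · left
      refine ⟨3, by norm_num, le_rfl, by omega, Ag.three hcq ?_ ?_ ?_ ?_, ?_⟩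
      · rw [show 10 * q₁ + 5 + 1 = 10 * q₁ + 6 by ring, V 6 (by norm_num) (by norm_num), hcase]
        simp [tab]
      · rw [show 10 * q₁ + 5 + 1 = 10 * q₁ + 6 by ring, C 6 (by norm_num), hcase]; rfl
      · rw [show 10 * q₁ + 5 + 2 = 10 * q₁ + 7 by ring, V 7 (by norm_num) (by norm_num), hcase]
        simp [tab]
      · rw [show 10 * q₁ + 5 + 2 = 10 * q₁ + 7 by ring, C 7 (by norm_num), hcase]; rfl
      · rw [show 10 * q₁ + 5 + 3 = 10 * q₁ + 8 by ring, V 8 (by norm_num) (by norm_num), hcase, W3]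
        simp [tab]
  · -- d = 6
    have hcase : chi q₁ = false := by
      revert hc; cases chi q₁ <;> simp [chiT]
    left
    refine ⟨2, by norm_num, by norm_num, by omega, Ag.two hcq ?_ ?_, ?_⟩
    · rw [show 10 * q₁ + 6 + 1 = 10 * q₁ + 7 by ring, V 7 (by norm_num) (by norm_num), hcase]
      simp [tab]
    · rw [show 10 * q₁ + 6 + 1 = 10 * q₁ + 7 by ring, C 7 (by norm_num), hcase]; rfl
    · rw [show 10 * q₁ + 6 + 2 = 10 * q₁ + 8 by ring, V 8 (by norm_num) (by norm_num), hcase, W2]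
      simp [tab]
  · -- d = 7
    have hcase : chi q₁ = true := by
      revert hc; cases chi q₁ <;> simp [chiT]
    right
    refine ⟨by omega, Ag.one hcq, ?_, ?_⟩
    · rw [show 10 * q₁ + 7 + 1 = 10 * q₁ + 8 by ring, V 8 (by norm_num) (by norm_num), hcase, W1]
      simp [tab, hbeq, hbveq]
    · rw [show 10 * q₁ + 7 + 1 = 10 * q₁ + 8 by ring, C 8 (by norm_num), chi1]
      simp [chiT]
  · -- d = 8
    have h1 : W m (10 * q₁ + 8 + 1) = bv m := by
      rw [show 10 * q₁ + 8 + 1 = 10 * q₁ + 9 by ring, V 9 (by norm_num) (by norm_num)]; rfl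
    have h2 : chi (10 * q₁ + 8 + 1) = false := by
      rw [show 10 * q₁ + 8 + 1 = 10 * q₁ + 9 by ring, C 9 (by norm_num)]; rfl
    left
    by_cases he : W m (10 * q₁ + 8 + 2) = al m
    · refine ⟨3, by norm_num, le_rfl, by omega, Ag.three hcq h1 h2 he ?_, ?_⟩
      · rw [show 10 * q₁ + 8 + 2 = 10 * (q₁ + 1) by ring]
        exact chi_ten _
      · rw [show 10 * q₁ + 8 + 3 = 10 * (q₁ + 1) + 1 by ring, W_dig _ _ _ (by norm_num)
          (by norm_num), W3]
        simp [tab, hbeq, hbveq]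
    · exact ⟨2, by norm_num, by norm_num, by omega, Ag.two hcq h1 h2, by rw [W2]; exact he⟩
  · simp [chiT] at hc

end Pool.Agent.R571.TO
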