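import Pool.Agent.R571.TO.Dyn

/-! Injectivity on the omega limit set, and a proximal pair. -/

namespace Pool.Agent.R571.TO

open Set Filter Topology

lemma W_false (k q : ℕ) (h : chi q = false) : W k q = bv k := by
  obtain ⟨q', d, hd, rfl⟩ : ∃ q' d, d < 10 ∧ q = 10 * q' + d := ⟨q / 10, q % 10, by omega, by omega⟩
  rw [chi_dig _ _ hd] at h
  interval_cases d
  all_goals first
    | (exfalso; revert h; simp [chiT]; done)
    | skip
  · rw [W_dig _ _ _ (by norm_num) (by norm_num)]; rfl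
  · rw [W_dig _ _ _ (by norm_num) (by norm_num)]; rfl
  · rw [W_dig _ _ _ (by norm_num) (by norm_num)]
    have : chi q' = true := by revert h; cases chi q' <;> simp [chiT]
    rw [this]; rfl
  · rw [W_dig _ _ _ (by norm_num) (by norm_num)]
    have : chi q' = false := by revert h; cases chi q' <;> simp [chiT]
    rw [this]; rfl
  · rw [W_dig _ _ _ (by norm_num) (by norm_num)]; rfl

lemma inZ_iff (m q : ℕ) : InZ m (10 ^ m * q) ↔ chi q = true := by
  constructor
  · rintro ⟨q', h, hq⟩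
    have : q = q' := Nat.eq_of_mul_eq_mul_left (by positivity) h
    rw [this]; exact hq
  · intro h
    exact ⟨q, rfl, h⟩

namespace Kn

variable {s : ℝ} (K : Kn s)
include K

lemma cong (k : ℕ) (hk : 1 ≤ k) : ∃ δ : ℝ, 0 < δ ∧ ∀ x x' : ℝ, tent s x = tent s x' →
    ∀ n n', 1 ≤ n → 1 ≤ n' → |(tent s)^[n] (1 / 2) - x| < δ → |(tent s)^[n'] (1 / 2) - x'| < δ →
    (∀ t, 1 ≤ t → t ≤ 2 * 10 ^ k → (InZ k (n + t) ↔ InZ k (n' + t))) ∧
      n % 10 ^ k = n' % 10 ^ k := by
  obtain ⟨δ, hδ, hsep⟩ := K.sep k hk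
  have hP : (0:ℝ) < 2 ^ (2 * 10 ^ k) := by positivity
  refine ⟨δ / 2 / 2 ^ (2 * 10 ^ k), by positivity, fun x x' hxx n n' hn hn' h1 h2 => ?_⟩
  rw [lt_div_iff₀ hP] at h1 h2
  have hlink : ∀ t, 1 ≤ t → t ≤ 2 * 10 ^ k →
      |(tent s)^[n + t] (1 / 2) - (tent s)^[n' + t] (1 / 2)| < δ := by
    intro t ht1 ht2
    have h3 := iter_lip K.pos K.h2 t ((tent s)^[n] (1 / 2)) x
    have h4 := iter_lip K.pos K.h2 t ((tent s)^[n'] (1 / 2)) x'
    rw [← Function.iterate_add_apply, add_comm t] at h3 h4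
    have h5 : (tent s)^[t] x = (tent s)^[t] x' := by
      obtain ⟨t, rfl⟩ : ∃ t', t = t' + 1 := ⟨t - 1, by omega⟩
      rw [Function.iterate_succ_apply, Function.iterate_succ_apply, hxx]
    have h6 : (2:ℝ) ^ t ≤ 2 ^ (2 * 10 ^ k) := pow_le_pow_right₀ (by norm_num) ht2
    have h7 := mul_le_mul_of_nonneg_right h6 (abs_nonneg ((tent s)^[n] (1 / 2) - x))
    have h8 := mul_le_mul_of_nonneg_right h6 (abs_nonneg ((tent s)^[n'] (1 / 2) - x'))
    calc |(tent s)^[n + t] (1 / 2) - (tent s)^[n' + t] (1 / 2)|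
        = |((tent s)^[n + t] (1 / 2) - (tent s)^[t] x) -
            ((tent s)^[n' + t] (1 / 2) - (tent s)^[t] x')| := by rw [h5]; congr 1; ring
      _ ≤ |(tent s)^[n + t] (1 / 2) - (tent s)^[t] x| +
            |(tent s)^[n' + t] (1 / 2) - (tent s)^[t] x'| := abs_sub _ _
      _ < δ := by linarith
  have hiff : ∀ t, 1 ≤ t → t ≤ 2 * 10 ^ k → (InZ k (n + t) ↔ InZ k (n' + t)) := by
    intro t ht1 ht2
    have h3 := hlink t ht1 ht2
    constructor
    · intro hz
      by_contra hcon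
      have := hsep (n + t) (n' + t) (by omega) (by omega) hz hcon
      linarith
    · intro hz
      by_contra hcon
      have := hsep (n' + t) (n + t) (by omega) (by omega) hz hcon
      rw [abs_sub_comm] at this
      linarith
  refine ⟨hiff, ?_⟩
  obtain ⟨t, ht1, ht2, ht3⟩ := K.gap k n
  have h3 := (hiff t ht1 ht2).1 ht3
  obtain ⟨q, hq, -⟩ := ht3
  obtain ⟨q', hq', -⟩ := h3
  have e1 : (n + t) % 10 ^ k = 0 := by rw [hq]; exact Nat.mul_mod_right _ _
  have e2 : (n' + t) % 10 ^ k = 0 := by rw [hq']; exact Nat.mul_mod_right _ _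
  have e3 : n + t ≡ n' + t [MOD 10 ^ k] := e1.trans e2.symm
  exact Nat.ModEq.add_right_cancel' t e3

lemma digit {y y' : ℝ} (hy : y ∈ omega (tent s) (1 / 2)) (hy' : y' ∈ omega (tent s) (1 / 2))
    (hyy : tent s y = tent s y') (h1 : y < 1 / 2) (h2 : 1 / 2 < y') :
    ∃ m₁, ∀ m, m₁ ≤ m → ∃ δ : ℝ, 0 < δ ∧ ∀ n, 1 ≤ n → |(tent s)^[n] (1 / 2) - y| < δ →
      (n / 10 ^ m) % 10 = 7 ∧ (tent s)^[10 ^ m - n % 10 ^ m] y = 1 / 2 := by
  set d := min (1 / 2 - y) (y' - 1 / 2) with hd
  have hd0 : 0 < d := lt_min (by linarith) (by linarith)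
  have hd1 : d ≤ 1 / 2 - y := min_le_left _ _
  have hd2 : d ≤ y' - 1 / 2 := min_le_right _ _
  obtain ⟨m₀, hm₀⟩ := K.exists_small (half_pos hd0)
  refine ⟨max m₀ 1, fun m hm => ?_⟩
  have hm1 : 1 ≤ m := (le_max_right _ _).trans hm
  have hms := hm₀ m ((le_max_left _ _).trans hm)
  obtain ⟨δ₁, hδ₁, hc1⟩ := K.cong m hm1
  obtain ⟨δ₂, hδ₂, hc2⟩ := K.cong (m + 1) (by omega)
  set δ := min (min δ₁ δ₂) (d / 2) with hδ
  have hδ0 : 0 < δ := lt_min (lt_min hδ₁ hδ₂) (by linarith)
  have hδa : δ ≤ δ₁ := (min_le_left _ _).trans (min_le_left _ _)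
  have hδb : δ ≤ δ₂ := (min_le_left _ _).trans (min_le_right _ _)
  have hδc : δ ≤ d / 2 := min_le_right _ _
  refine ⟨δ, hδ0, fun n hn hny => ?_⟩
  have hp : 0 < 10 ^ m := by positivity
  have key : ∀ ε' : ℝ, 0 < ε' → ε' < δ → (n / 10 ^ m) % 10 = 7 ∧
      |(tent s)^[10 ^ m - n % 10 ^ m] y - 1 / 2| ≤ 2 ^ (10 ^ m - n % 10 ^ m) * ε' := by
    intro ε' hε' hε'δ
    obtain ⟨a, ha1, ha⟩ := mem_omega.1 hy 1 ε' hε'
    obtain ⟨b, hb1, hb⟩ := mem_omega.1 hy' 1 ε' hε'
    have hWa : W 0 a = false := by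
      rw [(K.h a ha1).2]
      have := (abs_lt.1 ha).2
      linarith
    have hWb : W 0 b = true := by
      rw [(K.h b hb1).1]
      have := (abs_lt.1 hb).1
      linarith
    obtain ⟨hiff, hab⟩ := hc1 y y' hyy a b ha1 hb1 (by linarith) (by linarith)
    obtain ⟨-, hab2⟩ := hc2 y y' hyy a b ha1 hb1 (by linarith) (by linarith)
    obtain ⟨-, hna⟩ := hc1 y y rfl n a hn ha1 (by linarith) (by linarith)
    obtain ⟨-, hna2⟩ := hc2 y y rfl n a hn ha1 (by linarith) (by linarith)
    set o := a % 10 ^ m with ho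
    have holt : o < 10 ^ m := Nat.mod_lt _ hp
    have hea : a = 10 ^ m * (a / 10 ^ m) + o := (Nat.div_add_mod a _).symm
    have heb : b = 10 ^ m * (b / 10 ^ m) + o := by
      rw [hab]; exact (Nat.div_add_mod b _).symm
    set qa := a / 10 ^ m with hqa
    set qb := b / 10 ^ m with hqb
    have hdig : qa % 10 = qb % 10 := by
      rw [hqa, hqb, ← Nat.mod_mul_right_div_self, ← Nat.mod_mul_right_div_self, ← pow_succ, hab2]
    have hdign : (n / 10 ^ m) % 10 = qa % 10 := by
      rw [hqa, ← Nat.mod_mul_right_div_self, ← Nat.mod_mul_right_div_self, ← pow_succ, hna2]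
    have hchi : chi qa ≠ chi qb := by
      intro heq
      rcases Nat.eq_zero_or_pos o with ho0 | ho1
      · rw [ho0, add_zero] at hea heb
        have hqa1 : 1 ≤ qa := by
          rcases Nat.eq_zero_or_pos qa with h | h
          · rw [h, mul_zero] at hea; omega
          · exact h
        have hqb1 : 1 ≤ qb := by
          rcases Nat.eq_zero_or_pos qb with h | h
          · rw [h, mul_zero] at heb; omega
          · exact h
        have hfa : chi qa = false := by
          rcases hc : chi qa with _ | _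
          · rfl
          · exfalso
            have h3 := K.near' ha1 (m := m) (by rw [hea]; exact (inZ_iff m qa).2 hc)
            have h4 := (abs_lt.1 ha).2
            have h5 := (abs_le.1 h3).1
            linarith
        have e1 : W 0 a = bv m := by
          rw [hea, W_pow _ _ _ hqa1, zero_add, W_false _ _ hfa]
        have e2 : W 0 b = bv m := by
          rw [heb, W_pow _ _ _ hqb1, zero_add, W_false _ _ (by rw [← heq]; exact hfa)]
        rw [hWa] at e1
        rw [hWb, ← e1] at e2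
        simp at e2
      · have h3 := (toep m 0 qa qb o heq holt).1 ho1
        rw [← hea, ← heb, hWa, hWb] at h3
        simp at h3
    -- digits
    set Qa := qa / 10 with hQa
    set Qb := qb / 10 with hQb
    set e := qa % 10 with he
    have he10 : e < 10 := Nat.mod_lt _ (by norm_num)
    have hqa' : qa = 10 * Qa + e := (Nat.div_add_mod qa 10).symm
    have hqb' : qb = 10 * Qb + e := by rw [hdig]; exact (Nat.div_add_mod qb 10).symm
    rw [hqa', hqb', chi_dig _ _ he10, chi_dig _ _ he10] at hchi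
    have ht1 : 1 ≤ 10 ^ m - o := by omega
    have hat : a + (10 ^ m - o) = 10 ^ m * (qa + 1) := by
      rw [Nat.mul_succ]; omega
    have hbt : b + (10 ^ m - o) = 10 ^ m * (qb + 1) := by
      rw [Nat.mul_succ]; omega
    have hnext : chi (qa + 1) = chi (qb + 1) := by
      have h3 := hiff (10 ^ m - o) ht1 (by omega)
      rw [hat, hbt, inZ_iff, inZ_iff] at h3
      exact Bool.eq_iff_iff.2 h3
    have he7 : e = 7 := by
      revert hchi
      clear_value e
      interval_cases e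
      all_goals first
        | (intro hc; exact absurd rfl hc)
        | skip
      · intro hc
        exfalso
        rw [hqa', hqb', show 10 * Qa + 6 + 1 = 10 * Qa + 7 by ring,
          show 10 * Qb + 6 + 1 = 10 * Qb + 7 by ring, chi_dig _ _ (by norm_num),
          chi_dig _ _ (by norm_num)] at hnext
        apply hc
        simp only [chiT] at hnext ⊢
        rw [hnext]
      · intro _; rfl
    refine ⟨by rw [hdign, he7], ?_⟩
    rw [hna]
    set t := 10 ^ m - o with ht
    have hQ : chi Qa ≠ chi Qb := by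
      rw [he7] at hchi
      simpa [chiT] using hchi
    have hWt : W 0 (a + t) ≠ W 0 (b + t) := by
      rw [hat, hbt, W_pow _ _ _ (by omega), W_pow _ _ _ (by omega), zero_add, hqa', hqb', he7,
        show 10 * Qa + 7 + 1 = 10 * Qa + 8 by ring, show 10 * Qb + 7 + 1 = 10 * Qb + 8 by ring,
        W_dig _ _ _ (by norm_num) (by norm_num), W_dig _ _ _ (by norm_num) (by norm_num)]
      have hbeq : be m = !al m := by
        rcases abc m with ⟨h, -⟩ | ⟨-, h1, h2, -⟩ | ⟨-, h1, h2, -⟩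
        · omega
        · rw [h1, h2]; rfl
        · rw [h1, h2]; rfl
      revert hQ
      unfold tab
      rw [hbeq]
      cases chi Qa <;> cases chi Qb <;> cases al m <;> simp
    have h3 := iter_lip K.pos K.h2 t ((tent s)^[a] (1 / 2)) y
    have h4 := iter_lip K.pos K.h2 t ((tent s)^[b] (1 / 2)) y'
    rw [← Function.iterate_add_apply, add_comm t] at h3 h4
    have h5 : (tent s)^[t] y' = (tent s)^[t] y := by
      obtain ⟨t', ht'⟩ : ∃ t', t = t' + 1 := ⟨t - 1, by omega⟩
      rw [ht', Function.iterate_succ_apply, Function.iterate_succ_apply, hyy]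
    rw [h5] at h4
    have hP : (0:ℝ) < 2 ^ t := by positivity
    have h6 : 2 ^ t * |(tent s)^[a] (1 / 2) - y| ≤ 2 ^ t * ε' :=
      mul_le_mul_of_nonneg_left ha.le hP.le
    have h7 : 2 ^ t * |(tent s)^[b] (1 / 2) - y'| ≤ 2 ^ t * ε' :=
      mul_le_mul_of_nonneg_left hb.le hP.le
    have h8 := abs_le.1 (h3.trans h6)
    have h9 := abs_le.1 (h4.trans h7)
    rcases hc : W 0 (a + t) with _ | _
    · have hd' : W 0 (b + t) = true := by
        rw [hc] at hWt; simpa using hWt
      have h10 := (K.h (a + t) (by omega)).2.1 hc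
      have h11 := (K.h (b + t) (by omega)).1.1 hd'
      rw [abs_le]
      constructor <;> linarith [h8.1, h8.2, h9.1, h9.2]
    · have hd' : W 0 (b + t) = false := by
        rw [hc] at hWt; simpa using hWt
      have h10 := (K.h (a + t) (by omega)).1.1 hc
      have h11 := (K.h (b + t) (by omega)).2.1 hd'
      rw [abs_le]
      constructor <;> linarith [h8.1, h8.2, h9.1, h9.2]
  refine ⟨(key (δ / 2) (by linarith) (by linarith)).1, ?_⟩
  by_contra hne
  set t := 10 ^ m - n % 10 ^ m with ht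
  have hpos : 0 < |(tent s)^[t] y - 1 / 2| := abs_pos.2 (sub_ne_zero.2 hne)
  have hP : (0:ℝ) < 2 ^ t := by positivity
  have h3 := (key (min (δ / 2) (|(tent s)^[t] y - 1 / 2| / 2 / 2 ^ t))
    (lt_min (by linarith) (by positivity)) ((min_le_left _ _).trans_lt (by linarith))).2
  have h4 : 2 ^ t * min (δ / 2) (|(tent s)^[t] y - 1 / 2| / 2 / 2 ^ t) ≤
      2 ^ t * (|(tent s)^[t] y - 1 / 2| / 2 / 2 ^ t) :=
    mul_le_mul_of_nonneg_left (min_le_right _ _) hP.le
  rw [mul_div_cancel₀ _ hP.ne'] at h4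
  linarith

lemma inj_aux {y y' : ℝ} (hy : y ∈ omega (tent s) (1 / 2)) (hy' : y' ∈ omega (tent s) (1 / 2))
    (hyy : tent s y = tent s y') (h1 : y < 1 / 2) (h2 : 1 / 2 < y') : False := by
  obtain ⟨m, hm⟩ := K.digit hy hy' hyy h1 h2
  obtain ⟨δ₁, hδ₁, hd1⟩ := hm m le_rfl
  obtain ⟨δ₂, hδ₂, hd2⟩ := hm (m + 1) (by omega)
  obtain ⟨n, hn, hny⟩ := mem_omega.1 hy 1 (min δ₁ δ₂) (lt_min hδ₁ hδ₂)
  obtain ⟨h3, h4⟩ := hd1 n hn (hny.trans_le (min_le_left _ _))
  obtain ⟨-, h5⟩ := hd2 n hn (hny.trans_le (min_le_right _ _))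
  have hp : 0 < 10 ^ m := by positivity
  have h6 : n % 10 ^ (m + 1) = n % 10 ^ m + 10 ^ m * 7 := by
    rw [Nat.mod_pow_succ, h3]
  have h7 : n % 10 ^ m < 10 ^ m := Nat.mod_lt _ hp
  have h8 : 10 ^ (m + 1) - n % 10 ^ (m + 1) = 2 * 10 ^ m + (10 ^ m - n % 10 ^ m) := by
    rw [h6, pow_succ]; omega
  rw [h8, Function.iterate_add_apply, h4] at h5
  exact K.ne _ (by omega) h5

lemma injOn : InjOn (tent s) (omega (tent s) (1 / 2)) := by
  intro y hy y' hy' hyy
  by_contra hne
  have hs : 0 < s := by linarith [K.one_lt]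
  have h1 : min y (1 - y) = min y' (1 - y') := by
    have := hyy
    unfold tent at this
    exact mul_left_cancel₀ hs.ne' this
  rcases lt_trichotomy y (1 / 2) with h | h | h
  · rcases lt_or_ge (1 / 2) y' with h' | h'
    · exact K.inj_aux hy hy' hyy h h'
    · rw [min_eq_left (by linarith), min_eq_left (by linarith)] at h1
      exact hne h1
  · rw [h, min_eq_left (by norm_num)] at h1
    apply hne
    rw [h]
    rcases le_total y' (1 / 2) with h' | h'
    · rw [min_eq_left (by linarith)] at h1; exact h1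
    · rw [min_eq_right (by linarith)] at h1; linarith
  · rcases lt_or_ge y' (1 / 2) with h' | h'
    · exact K.inj_aux hy' hy hyy.symm h' h
    · rw [min_eq_right (by linarith), min_eq_right (by linarith)] at h1
      apply hne; linarith

end Kn

/-! ### the proximal pair -/

def sv : ℕ → ℕ
  | 0 => 0
  | M + 1 => 10 * sv M + 7

def sv' : ℕ → ℕ
  | 0 => 1
  | M + 1 => 10 * sv' M + 7

lemma chi_sv (M : ℕ) : chi (sv M) = true := by
  induction M with
  | zero => exact chi_zero
  | succ M ih => rw [sv, chi_dig _ _ (by norm_num), ih]; rfl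

lemma chi_sv' (M : ℕ) : chi (sv' M) = false := by
  induction M with
  | zero => exact chi1
  | succ M ih => rw [sv', chi_dig _ _ (by norm_num), ih]; rfl

lemma sv_add (m k : ℕ) : sv (m + k) = 10 ^ m * sv k + sv m := by
  induction m with
  | zero => simp [sv]
  | succ m ih =>
    rw [show m + 1 + k = (m + k) + 1 by ring, sv, ih, sv, pow_succ]; ring

lemma sv'_add (m k : ℕ) : sv' (m + k) = 10 ^ m * sv' k + sv m := by
  induction m with
  | zero => simp [sv]
  | succ m ih =>
    rw [show m + 1 + k = (m + k) + 1 by ring, sv', ih, sv, pow_succ]; ring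

lemma sv_lt (m : ℕ) : sv m < 10 ^ m := by
  induction m with
  | zero => simp [sv]
  | succ m ih => rw [sv, pow_succ]; omega

lemma sv_ge (m : ℕ) : m ≤ sv m := by
  induction m with
  | zero => simp
  | succ m ih => rw [sv]; omega

lemma sv'_ge (m : ℕ) : m ≤ sv' m := by
  induction m with
  | zero => simp
  | succ m ih => rw [sv']; omega

lemma sv_inZ (m k : ℕ) : InZ m (sv (m + (k + 1)) + (10 ^ m - sv m)) := by
  have h := sv_lt m
  refine ⟨10 * sv k + 8, ?_, by rw [chi_dig _ _ (by norm_num)]; rfl⟩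
  rw [sv_add, sv]
  have : 10 ^ m * (10 * sv k + 8) = 10 ^ m * (10 * sv k + 7) + 10 ^ m := by ring
  omega

lemma sv'_inZ (m k : ℕ) : InZ m (sv' (m + (k + 1)) + (10 ^ m - sv m)) := by
  have h := sv_lt m
  refine ⟨10 * sv' k + 8, ?_, by rw [chi_dig _ _ (by norm_num)]; rfl⟩
  rw [sv'_add, sv']
  have : 10 ^ m * (10 * sv' k + 8) = 10 ^ m * (10 * sv' k + 7) + 10 ^ m := by ring
  omega

lemma not_inZ_one {n : ℕ} (h : n % 10 = 7) : ¬ InZ 1 n := by
  rintro ⟨q, rfl, -⟩
  omega

namespace Kn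

variable {s : ℝ} (K : Kn s)
include K

lemma proximal : ∃ y ∈ omega (tent s) (1 / 2), ∃ y' ∈ omega (tent s) (1 / 2), y ≠ y' ∧
    ∀ m, |(tent s)^[10 ^ m - sv m] y - 1 / 2| ≤ 1 / s ^ (10 ^ m) ∧
      |(tent s)^[10 ^ m - sv m] y' - 1 / 2| ≤ 1 / s ^ (10 ^ m) := by
  obtain ⟨η, hη, hfar⟩ := K.far 3
  have hlow : ∀ M, (tent s)^[sv (M + 1)] (1 / 2) ≤ 1 / 2 - η := by
    intro M
    have h1 : 1 ≤ sv (M + 1) := by rw [sv]; omega
    obtain ⟨r, hr1, -, -, hr2⟩ := first_diff _ h1
    have h2 := hfar _ r h1 (by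
      have := hr2 1 le_rfl (not_inZ_one (by rw [sv]; omega))
      simpa using this) hr1
    have hW : W 0 (sv (M + 1)) = false := by
      rw [sv, W_dig _ _ _ (by norm_num) (by norm_num), chi_sv]; rfl
    have h3 := (K.h _ h1).2.1 hW
    rw [abs_of_neg (by linarith)] at h2
    linarith
  have hhigh : ∀ M, 1 / 2 + η ≤ (tent s)^[sv' (M + 1)] (1 / 2) := by
    intro M
    have h1 : 1 ≤ sv' (M + 1) := by rw [sv']; omega
    obtain ⟨r, hr1, -, -, hr2⟩ := first_diff _ h1
    have h2 := hfar _ r h1 (by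
      have := hr2 1 le_rfl (not_inZ_one (by rw [sv']; omega))
      simpa using this) hr1
    have hW : W 0 (sv' (M + 1)) = true := by
      rw [sv', W_dig _ _ _ (by norm_num) (by norm_num), chi_sv']; rfl
    have h3 := (K.h _ h1).1.1 hW
    rw [abs_of_pos (by linarith)] at h2
    linarith
  obtain ⟨⟨y, y'⟩, -, φ, hφ, hlim⟩ := ((isCompact_Icc (a := (0:ℝ)) (b := 1)).prod
    (isCompact_Icc (a := (0:ℝ)) (b := 1))).tendsto_subseq
    (x := fun M => ((tent s)^[sv (M + 1)] (1 / 2), (tent s)^[sv' (M + 1)] (1 / 2)))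
    (fun M => ⟨K.orb_mem _, K.orb_mem _⟩)
  rw [Prod.tendsto_iff] at hlim
  obtain ⟨hl1, hl2⟩ := hlim
  simp only [Function.comp_def] at hl1 hl2
  have hφge : ∀ i, i ≤ φ i := hφ.id_le
  refine ⟨y, ?_, y', ?_, ?_, ?_⟩
  · rw [mem_omega]
    intro N ε hε
    obtain ⟨i₀, hi₀⟩ := Metric.tendsto_atTop.1 hl1 ε hε
    have := hi₀ (max i₀ N) (le_max_left _ _)
    refine ⟨_, ?_, by rwa [Real.dist_eq] at this⟩
    have h1 := hφge (max i₀ N)
    have h2 := sv_ge (φ (max i₀ N) + 1)
    have h3 := le_max_right i₀ N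
    omega
  · rw [mem_omega]
    intro N ε hε
    obtain ⟨i₀, hi₀⟩ := Metric.tendsto_atTop.1 hl2 ε hε
    have := hi₀ (max i₀ N) (le_max_left _ _)
    refine ⟨_, ?_, by rwa [Real.dist_eq] at this⟩
    have h1 := hφge (max i₀ N)
    have h2 := sv'_ge (φ (max i₀ N) + 1)
    have h3 := le_max_right i₀ N
    omega
  · have h1 : y ≤ 1 / 2 - η := le_of_tendsto hl1 (Eventually.of_forall fun i => hlow _)
    have h2 : 1 / 2 + η ≤ y' := ge_of_tendsto hl2 (Eventually.of_forall fun i => hhigh _)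
    linarith
  · intro m
    have hc : Continuous fun x => |(tent s)^[10 ^ m - sv m] x - 1 / 2| :=
      (((tent_cont s).iterate _).sub continuous_const).abs
    constructor
    · refine le_of_tendsto ((hc.tendsto y).comp hl1) ?_
      filter_upwards [eventually_ge_atTop m] with i hi
      have h1 : m ≤ φ i := hi.trans (hφge i)
      obtain ⟨k, hk⟩ : ∃ k, φ i = m + k := ⟨φ i - m, by omega⟩
      show |(tent s)^[10 ^ m - sv m] ((tent s)^[sv (φ i + 1)] (1 / 2)) - 1 / 2| ≤ _
      rw [← Function.iterate_add_apply, add_comm (10 ^ m - sv m), hk, add_assoc]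
      apply K.near' _ (sv_inZ m k)
      have := sv_lt m
      omega
    · refine le_of_tendsto ((hc.tendsto y').comp hl2) ?_
      filter_upwards [eventually_ge_atTop m] with i hi
      have h1 : m ≤ φ i := hi.trans (hφge i)
      obtain ⟨k, hk⟩ : ∃ k, φ i = m + k := ⟨φ i - m, by omega⟩
      show |(tent s)^[10 ^ m - sv m] ((tent s)^[sv' (φ i + 1)] (1 / 2)) - 1 / 2| ≤ _
      rw [← Function.iterate_add_apply, add_comm (10 ^ m - sv m), hk, add_assoc]
      apply K.near' _ (sv'_inZ m k)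
      have := sv_lt m
      omega

end Kn

end Pool.Agent.R571.TO
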