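import Mathlib

/-! The kneading sequence: a Toeplitz type sequence defined through decimal digits. -/

namespace Pool.Agent.R571.TO

def chiT (d : ℕ) (a : Bool) : Bool :=
  match d with
  | 1 => false
  | 4 => false
  | 9 => false
  | 6 => !a
  | 7 => a
  | _ => true

/-- block types; `true` is type A -/
def chi (n : ℕ) : Bool := if h : n = 0 then true else chiT (n % 10) (chi (n / 10))
termination_by n
decreasing_by omega

def al (m : ℕ) : Bool := m % 2 == 1
def be (m : ℕ) : Bool := m != 0 && m % 2 == 0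
def bv (m : ℕ) : Bool := m == 0 || m % 2 == 1

def tab (m d : ℕ) (a : Bool) : Bool :=
  match d with
  | 2 => al m
  | 3 => if a then be m else !be m
  | 5 => if a then !al m else al m
  | 6 => if a then bv m else !be m
  | 7 => if a then al m else bv m
  | 8 => if a then !be m else !al m
  | _ => bv m

/-- the value at the `n`-th point of level `m` -/
def W (m n : ℕ) : Bool :=
  if h : n = 0 then true
  else if n % 10 = 0 then W (m + 1) (n / 10) else tab m (n % 10) (chi (n / 10))
termination_by n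
decreasing_by omega

lemma abc (m : ℕ) : (m = 0 ∧ al m = false ∧ be m = false ∧ bv m = true) ∨
    (1 ≤ m ∧ al m = true ∧ be m = false ∧ bv m = true) ∨
    (1 ≤ m ∧ al m = false ∧ be m = true ∧ bv m = false) := by
  rcases Nat.eq_zero_or_pos m with rfl | hm
  · left; decide
  · right
    unfold al be bv
    rcases Nat.mod_two_eq_zero_or_one m with h | h
    · right
      refine ⟨hm, ?_, ?_, ?_⟩ <;> simp [h] <;> omega
    · left
      refine ⟨hm, ?_, ?_, ?_⟩ <;> simp [h]

lemma al_succ (m : ℕ) : al (m + 1) = !al m := by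
  unfold al
  rcases Nat.mod_two_eq_zero_or_one m with h | h
  · have : (m + 1) % 2 = 1 := by omega
    simp [h, this]
  · have : (m + 1) % 2 = 0 := by omega
    simp [h, this]

lemma chi_dig (q d : ℕ) (hd : d < 10) : chi (10 * q + d) = chiT d (chi q) := by
  by_cases h : 10 * q + d = 0
  · have hq : q = 0 := by omega
    have hd0 : d = 0 := by omega
    subst hq; subst hd0
    rw [chi]
    simp [chiT]
  · rw [chi, dif_neg h]
    have h1 : (10 * q + d) % 10 = d := by omega
    have h2 : (10 * q + d) / 10 = q := by omega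
    rw [h1, h2]

lemma chi_ten (q : ℕ) : chi (10 * q) = true := by
  have := chi_dig q 0 (by norm_num)
  simpa [chiT] using this

lemma W_ten (m q : ℕ) (hq : 1 ≤ q) : W m (10 * q) = W (m + 1) q := by
  rw [W, dif_neg (by omega), if_pos (by omega)]
  congr 1
  omega

lemma W_dig (m q d : ℕ) (hd0 : 1 ≤ d) (hd : d < 10) : W m (10 * q + d) = tab m d (chi q) := by
  rw [W, dif_neg (by omega), if_neg (by omega)]
  have h1 : (10 * q + d) % 10 = d := by omega
  have h2 : (10 * q + d) / 10 = q := by omega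
  rw [h1, h2]

lemma chi_zero : chi 0 = true := chi_ten 0

/-- types B are isolated -/
lemma chi_next (q : ℕ) (h : chi q = false) : chi (q + 1) = true := by
  obtain ⟨q', d, hd, rfl⟩ : ∃ q' d, d < 10 ∧ q = 10 * q' + d := ⟨q / 10, q % 10, by omega, by omega⟩
  rw [chi_dig _ _ hd] at h
  interval_cases d
  all_goals first
    | (exfalso; revert h; simp [chiT]; done)
    | skip
  · rw [show 10 * q' + 1 + 1 = 10 * q' + 2 by ring, chi_dig _ _ (by norm_num)]; rfl
  · rw [show 10 * q' + 4 + 1 = 10 * q' + 5 by ring, chi_dig _ _ (by norm_num)]; rfl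
  · rw [show 10 * q' + 6 + 1 = 10 * q' + 7 by ring, chi_dig _ _ (by norm_num)]
    revert h; cases chi q' <;> simp [chiT]
  · rw [show 10 * q' + 7 + 1 = 10 * q' + 8 by ring, chi_dig _ _ (by norm_num)]; rfl
  · rw [show 10 * q' + 9 + 1 = 10 * (q' + 1) by ring]
    exact chi_ten _

/-- Toeplitz property -/
lemma toep (k : ℕ) : ∀ (m q q' i : ℕ), chi q = chi q' → i < 10 ^ k →
    (1 ≤ i → W m (10 ^ k * q + i) = W m (10 ^ k * q' + i)) ∧
      chi (10 ^ k * q + i) = chi (10 ^ k * q' + i) := by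
  induction k with
  | zero =>
    intro m q q' i h hi
    have : i = 0 := by simpa using hi
    subst this
    simp [h]
  | succ k ih =>
    intro m q q' i h hi
    obtain ⟨i', d, hd, rfl⟩ : ∃ i' d, d < 10 ∧ i = 10 * i' + d :=
      ⟨i / 10, i % 10, by omega, by omega⟩
    have hi' : i' < 10 ^ k := by
      rw [pow_succ] at hi
      omega
    have e1 : 10 ^ (k + 1) * q + (10 * i' + d) = 10 * (10 ^ k * q + i') + d := by ring
    have e2 : 10 ^ (k + 1) * q' + (10 * i' + d) = 10 * (10 ^ k * q' + i') + d := by ring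
    rw [e1, e2, chi_dig _ _ hd, chi_dig _ _ hd, (ih (m + 1) q q' i' h hi').2]
    refine ⟨fun h1 => ?_, rfl⟩
    rcases Nat.eq_zero_or_pos d with rfl | hd0
    · have hi1 : 1 ≤ i' := by omega
      rw [add_zero, add_zero, W_ten _ _ (by omega), W_ten _ _ (by omega)]
      exact (ih (m + 1) q q' i' h hi').1 hi1
    · rw [W_dig _ _ _ hd0 hd, W_dig _ _ _ hd0 hd, (ih (m + 1) q q' i' h hi').2]

lemma W_pow (k m q : ℕ) (hq : 1 ≤ q) : W m (10 ^ k * q) = W (m + k) q := by
  induction k generalizing m with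
  | zero => simp
  | succ k ih =>
    have e : 10 ^ (k + 1) * q = 10 * (10 ^ k * q) := by ring
    rw [e, W_ten _ _ (Nat.mul_pos (by positivity) hq), ih]
    congr 1
    omega

/-! ### comparison with the origin -/

def Ag (m q j : ℕ) : Prop :=
  chi q = true ∧ ∀ i, 1 ≤ i → i < j → W m (q + i) = W m i ∧ chi (q + i) = chi i

lemma Ag.lift {m q j : ℕ} (h : Ag (m + 1) q j) : Ag m (10 * q) (10 * j) := by
  refine ⟨chi_ten q, fun i hi1 hi2 => ?_⟩
  obtain ⟨i', d, hd, rfl⟩ : ∃ i' d, d < 10 ∧ i = 10 * i' + d :=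
    ⟨i / 10, i % 10, by omega, by omega⟩
  have e1 : 10 * q + (10 * i' + d) = 10 * (q + i') + d := by ring
  have hchi : chi (q + i') = chi i' := by
    rcases Nat.eq_zero_or_pos i' with rfl | hi'
    · rw [add_zero, h.1, chi_zero]
    · exact (h.2 i' hi' (by omega)).2
  rw [e1, chi_dig _ _ hd, chi_dig _ _ hd, hchi]
  refine ⟨?_, rfl⟩
  rcases Nat.eq_zero_or_pos d with rfl | hd0
  · have hi' : 1 ≤ i' := by omega
    rw [add_zero, add_zero, W_ten _ _ (by omega), W_ten _ _ hi']
    exact (h.2 i' hi' (by omega)).1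
  · rw [W_dig _ _ _ hd0 hd, W_dig _ _ _ hd0 hd, hchi]

lemma Ag.lift_pow {m q j : ℕ} (h : Ag m q j) : Ag 0 (10 ^ m * q) (10 ^ m * j) := by
  induction m generalizing q j with
  | zero => simpa using h
  | succ m ih =>
    have := ih h.lift
    have e1 : 10 ^ m * (10 * q) = 10 ^ (m + 1) * q := by ring
    have e2 : 10 ^ m * (10 * j) = 10 ^ (m + 1) * j := by ring
    rwa [e1, e2] at this

/-- `r` is the first place where the sequence shifted by `n` differs from the sequence -/
def IsR (n r : ℕ) : Prop :=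
  1 ≤ r ∧ (∀ i, 1 ≤ i → i < r → W 0 (n + i) = W 0 i) ∧ W 0 (n + r) ≠ W 0 r

lemma IsR.of_Ag {m q j : ℕ} (hj : 1 ≤ j) (h : Ag m q j) (hd : W m (q + j) ≠ W m j) :
    IsR (10 ^ m * q) (10 ^ m * j) := by
  refine ⟨Nat.mul_pos (by positivity) hj, fun i h1 h2 => (h.lift_pow.2 i h1 h2).1, ?_⟩
  have e : 10 ^ m * q + 10 ^ m * j = 10 ^ m * (q + j) := by ring
  rw [e, W_pow _ _ _ (by omega), W_pow _ _ _ hj, zero_add]
  exact hd

lemma Ag.type2 {m q j : ℕ} (hj : 1 ≤ j) (h : Ag (m + 1) q j) (hW : W (m + 1) (q + j) = W (m + 1) j)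
    (hc : chi (q + j) ≠ chi j) :
    Ag m (10 * q) (10 * j + 3) ∧ W m (10 * q + (10 * j + 3)) ≠ W m (10 * j + 3) := by
  refine ⟨⟨chi_ten q, fun i hi1 hi2 => ?_⟩, ?_⟩
  · rcases Nat.lt_or_ge i (10 * j) with h1 | h1
    · exact h.lift.2 i hi1 h1
    · obtain ⟨d, hd, rfl⟩ : ∃ d, d < 3 ∧ i = 10 * j + d := ⟨i - 10 * j, by omega, by omega⟩
      have e1 : 10 * q + (10 * j + d) = 10 * (q + j) + d := by ring
      rw [e1, chi_dig _ _ (by omega), chi_dig _ _ (by omega)]
      interval_cases d
      · rw [add_zero, add_zero, W_ten _ _ (by omega), W_ten _ _ hj]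
        exact ⟨hW, rfl⟩
      · rw [W_dig _ _ _ (by omega) (by omega), W_dig _ _ _ (by omega) (by omega)]
        exact ⟨rfl, rfl⟩
      · rw [W_dig _ _ _ (by omega) (by omega), W_dig _ _ _ (by omega) (by omega)]
        exact ⟨rfl, rfl⟩
  · have e1 : 10 * q + (10 * j + 3) = 10 * (q + j) + 3 := by ring
    rw [e1, W_dig _ _ _ (by omega) (by omega), W_dig _ _ _ (by omega) (by omega)]
    revert hc
    unfold tab
    cases chi (q + j) <;> cases chi j <;> simp

end Pool.Agent.R571.TO
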