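import Pool.Agent.R571.TO.Zero

/-! Parity of the number of ones. -/

namespace Pool.Agent.R571.TO

open Finset

def sg (b : Bool) : ℤˣ := if b then -1 else 1

lemma sg_mul_self (b : Bool) : sg b * sg b = 1 := by cases b <;> simp [sg]
lemma sg_not (b : Bool) : sg (!b) = - sg b := by cases b <;> simp [sg]

/-- product of the signs of the first `n` symbols -/
def CP (n : ℕ) : ℤˣ := ∏ i ∈ range n, sg (W 0 (i + 1))

def BB (k q : ℕ) : ℤˣ := ∏ i ∈ range (10 ^ k), sg (W 0 (10 ^ k * q + i + 1))

lemma prod_blocks (f : ℕ → ℤˣ) (a n : ℕ) :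
    ∏ i ∈ range (a * n), f i = ∏ d ∈ range n, ∏ i ∈ range a, f (a * d + i) := by
  induction n with
  | zero => simp
  | succ n ih => rw [Nat.mul_succ, Finset.prod_range_add, ih, Finset.prod_range_succ]

lemma CP_succ (k q : ℕ) : CP (10 ^ k * (q + 1)) = CP (10 ^ k * q) * BB k q := by
  unfold CP BB
  rw [Nat.mul_succ, Finset.prod_range_add]

lemma BB_succ (k q : ℕ) : BB (k + 1) q = ∏ d ∈ range 10, BB k (10 * q + d) := by
  unfold BB
  rw [pow_succ, prod_blocks]
  refine Finset.prod_congr rfl fun d _ => Finset.prod_congr rfl fun i _ => ?_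
  congr 2
  ring

def pv (k : ℕ) (a : Bool) : ℤˣ :=
  match k with
  | 0 => 1
  | k + 1 => if a then sg (al k) else sg (!al k)

lemma BB_eq (k : ℕ) : ∀ q, BB k q = pv k (chi q) * sg (W k (q + 1)) := by
  induction k with
  | zero =>
    intro q
    simp [BB, pv]
  | succ k ih =>
    intro q
    rw [BB_succ]
    have C : ∀ d, d < 10 → chi (10 * q + d) = chiT d (chi q) := fun d hd => chi_dig q d hd
    have V : ∀ d, 1 ≤ d → d < 10 → W k (10 * q + d) = tab k d (chi q) :=
      fun d hd1 hd => W_dig k q d hd1 hd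
    have V10 : W k (10 * q + 9 + 1) = W (k + 1) (q + 1) := by
      rw [show 10 * q + 9 + 1 = 10 * (q + 1) by ring, W_ten _ _ (by omega)]
    have e0 : BB k (10 * q + 0) = pv k true * sg (tab k 1 (chi q)) := by
      rw [ih, C 0 (by norm_num), add_zero, V 1 (by norm_num) (by norm_num)]; rfl
    have e1 : BB k (10 * q + 1) = pv k false * sg (tab k 2 (chi q)) := by
      rw [ih, C 1 (by norm_num), show 10 * q + 1 + 1 = 10 * q + 2 by ring,
        V 2 (by norm_num) (by norm_num)]; rfl
    have e2 : BB k (10 * q + 2) = pv k true * sg (tab k 3 (chi q)) := by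
      rw [ih, C 2 (by norm_num), show 10 * q + 2 + 1 = 10 * q + 3 by ring,
        V 3 (by norm_num) (by norm_num)]; rfl
    have e3 : BB k (10 * q + 3) = pv k true * sg (tab k 4 (chi q)) := by
      rw [ih, C 3 (by norm_num), show 10 * q + 3 + 1 = 10 * q + 4 by ring,
        V 4 (by norm_num) (by norm_num)]; rfl
    have e4 : BB k (10 * q + 4) = pv k false * sg (tab k 5 (chi q)) := by
      rw [ih, C 4 (by norm_num), show 10 * q + 4 + 1 = 10 * q + 5 by ring,
        V 5 (by norm_num) (by norm_num)]; rfl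
    have e5 : BB k (10 * q + 5) = pv k true * sg (tab k 6 (chi q)) := by
      rw [ih, C 5 (by norm_num), show 10 * q + 5 + 1 = 10 * q + 6 by ring,
        V 6 (by norm_num) (by norm_num)]; rfl
    have e6 : BB k (10 * q + 6) = pv k (!chi q) * sg (tab k 7 (chi q)) := by
      rw [ih, C 6 (by norm_num), show 10 * q + 6 + 1 = 10 * q + 7 by ring,
        V 7 (by norm_num) (by norm_num)]; rfl
    have e7 : BB k (10 * q + 7) = pv k (chi q) * sg (tab k 8 (chi q)) := by
      rw [ih, C 7 (by norm_num), show 10 * q + 7 + 1 = 10 * q + 8 by ring,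
        V 8 (by norm_num) (by norm_num)]; rfl
    have e8 : BB k (10 * q + 8) = pv k true * sg (tab k 9 (chi q)) := by
      rw [ih, C 8 (by norm_num), show 10 * q + 8 + 1 = 10 * q + 9 by ring,
        V 9 (by norm_num) (by norm_num)]; rfl
    have e9 : BB k (10 * q + 9) = pv k false * sg (W (k + 1) (q + 1)) := by
      rw [ih, C 9 (by norm_num), V10]; rfl
    simp only [Finset.prod_range_succ, Finset.prod_range_zero, one_mul, e0, e1, e2, e3, e4, e5, e6,
      e7, e8, e9]
    have hR : pv (k + 1) (chi q) = if chi q then sg (al k) else sg (!al k) := rfl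
    rw [hR]
    generalize W (k + 1) (q + 1) = w
    rcases abc k with ⟨-, ha, hb, hc⟩ | ⟨-, ha, hb, hc⟩ | ⟨-, ha, hb, hc⟩ <;>
    rcases chi q with _ | _ <;>
    simp only [tab, ha, hb, hc, Bool.not_true, Bool.not_false] <;>
    rcases Int.units_eq_one_or (pv k true) with h1 | h1 <;>
    rcases Int.units_eq_one_or (pv k false) with h2 | h2 <;>
    rw [h1, h2] <;> revert w <;> decide

lemma CP_pow (k : ℕ) : CP (10 ^ k) = -1 := by
  have h := CP_succ k 0
  rw [mul_zero, zero_add, mul_one] at h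
  rw [h, BB_eq, chi_zero, zero_add, W1]
  have h0 : CP 0 = 1 := by simp [CP]
  rw [h0, one_mul]
  rcases Nat.eq_zero_or_pos k with rfl | hk
  · rfl
  · obtain ⟨k, rfl⟩ : ∃ k', k = k' + 1 := ⟨k - 1, by omega⟩
    have h1 := al_succ k
    rcases abc (k + 1) with ⟨h, -⟩ | ⟨-, ha, -, hc⟩ | ⟨-, ha, -, hc⟩
    · omega
    · rw [ha] at h1
      have : al k = false := by revert h1; cases al k <;> simp
      simp [pv, hc, this, sg]
    · rw [ha] at h1
      have : al k = true := by revert h1; cases al k <;> simp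
      simp [pv, hc, this, sg]

lemma CP_two (k : ℕ) : CP (10 ^ k * 2) = -1 := by
  have h := CP_succ k 1
  rw [mul_one, CP_pow, BB_eq, chi1, W2] at h
  rw [show 2 = 1 + 1 from rfl, h]
  rcases Nat.eq_zero_or_pos k with rfl | hk
  · rfl
  · obtain ⟨k, rfl⟩ : ∃ k', k = k' + 1 := ⟨k - 1, by omega⟩
    have h1 := al_succ k
    show -1 * (sg (!al k) * sg (al (k + 1))) = -1
    rw [h1, sg_mul_self, mul_one]

lemma CP_three (k : ℕ) : CP (10 ^ k * 3) = -1 := by
  have h := CP_succ k 2
  rw [CP_two, BB_eq, chi2, W3] at h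
  rw [show 3 = 2 + 1 from rfl, h]
  rcases Nat.eq_zero_or_pos k with rfl | hk
  · rfl
  · obtain ⟨k, rfl⟩ : ∃ k', k = k' + 1 := ⟨k - 1, by omega⟩
    have h1 := al_succ k
    rcases abc (k + 1) with ⟨h, -⟩ | ⟨-, ha, hb, -⟩ | ⟨-, ha, hb, -⟩
    · omega
    · rw [ha] at h1
      have : al k = false := by revert h1; cases al k <;> simp
      simp [pv, hb, this, sg]
    · rw [ha] at h1
      have : al k = true := by revert h1; cases al k <;> simp
      simp [pv, hb, this, sg]

lemma CP_thirteen (k : ℕ) : CP (10 ^ k * 13) = -1 := by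
  have h10 : CP (10 ^ k * 10) = -1 := by rw [← pow_succ]; exact CP_pow _
  have h11 := CP_succ k 10
  have h12 := CP_succ k 11
  have h13 := CP_succ k 12
  rw [BB_eq] at h11 h12 h13
  have c10 : chi 10 = true := chi_ten 1
  have c11 : chi 11 = false := chi_dig 1 1 (by norm_num)
  have c12 : chi 12 = true := chi_dig 1 2 (by norm_num)
  have v11 : W k 11 = bv k := W_dig k 1 1 (by norm_num) (by norm_num)
  have v12 : W k 12 = al k := W_dig k 1 2 (by norm_num) (by norm_num)
  have v13 : W k 13 = !be k := by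
    have := W_dig k 1 3 (by norm_num) (by norm_num)
    rw [chi1] at this
    rw [this]; rfl
  norm_num at h11 h12 h13
  rw [h13, h12, h11, h10, c10, c11, c12, v11, v12, v13]
  rcases Nat.eq_zero_or_pos k with rfl | hk
  · rfl
  · obtain ⟨k, rfl⟩ : ∃ k', k = k' + 1 := ⟨k - 1, by omega⟩
    have h1 := al_succ k
    rcases abc (k + 1) with ⟨h, -⟩ | ⟨-, ha, hb, hc⟩ | ⟨-, ha, hb, hc⟩
    · omega
    · rw [ha] at h1
      have : al k = false := by revert h1; cases al k <;> simp
      simp [pv, ha, hb, hc, this, sg]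
    · rw [ha] at h1
      have : al k = true := by revert h1; cases al k <;> simp
      simp [pv, ha, hb, hc, this, sg]

theorem CP_Sp {r : ℕ} (h : Sp r) : CP r = -1 := by
  rcases h with ⟨k, j, h1, h2, rfl⟩ | ⟨k, rfl⟩
  · interval_cases j
    · rw [mul_one]; exact CP_pow k
    · exact CP_two k
    · exact CP_three k
  · exact CP_thirteen k

end Pool.Agent.R571.TO
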