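import Pool.Agent.R571.TO.Parity

/-! The tent map with the given kneading sequence. -/

namespace Pool.Agent.R571.TO

open Finset

noncomputable def sr (b : Bool) : ℝ := if b then -1 else 1
noncomputable def nr (b : Bool) : ℝ := if b then 1 else 0

lemma sr_abs (b : Bool) : |sr b| = 1 := by cases b <;> simp [sr]
lemma nr_le (b : Bool) : |nr b| ≤ 1 := by cases b <;> simp [nr]

noncomputable def pr (n j : ℕ) : ℝ := ∏ i ∈ range j, sr (W 0 (n + i))

lemma pr_abs (n j : ℕ) : |pr n j| = 1 := by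
  unfold pr
  rw [Finset.abs_prod]
  simp [sr_abs]

lemma pr_succ' (n j : ℕ) : pr n (j + 1) = sr (W 0 n) * pr (n + 1) j := by
  unfold pr
  rw [Finset.prod_range_succ', mul_comm, add_zero]
  congr 1
  refine Finset.prod_congr rfl fun i _ => ?_
  congr 2
  ring

lemma pr_CP (r : ℕ) : pr 1 r = (((CP r : ℤˣ) : ℤ) : ℝ) := by
  unfold pr CP
  rw [Units.coe_prod, Int.cast_prod]
  refine Finset.prod_congr rfl fun i _ => ?_
  rw [add_comm]
  cases W 0 (i + 1) <;> simp [sr, sg]

noncomputable def TT (n j : ℕ) (z : ℝ) : ℝ := pr n j * nr (W 0 (n + j)) * z ^ j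

noncomputable def Y (n : ℕ) (z : ℝ) : ℝ := ∑' j, TT n j z

lemma TT_le (n j : ℕ) {z : ℝ} (h0 : 0 ≤ z) (h1 : z ≤ 3 / 4) : ‖TT n j z‖ ≤ (3 / 4) ^ j := by
  unfold TT
  rw [Real.norm_eq_abs, abs_mul, abs_mul, pr_abs, one_mul, abs_pow, abs_of_nonneg h0]
  calc |nr (W 0 (n + j))| * z ^ j ≤ 1 * (3 / 4) ^ j :=
        mul_le_mul (nr_le _) (pow_le_pow_left₀ h0 h1 j) (by positivity) (by norm_num)
    _ = (3 / 4) ^ j := one_mul _

lemma geo : Summable fun j : ℕ => (3 / 4 : ℝ) ^ j :=
  summable_geometric_of_lt_one (by norm_num) (by norm_num)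

lemma TT_sum (n : ℕ) {z : ℝ} (h0 : 0 ≤ z) (h1 : z ≤ 3 / 4) : Summable fun j => TT n j z :=
  Summable.of_norm_bounded geo fun j => TT_le n j h0 h1

lemma Y_rec (n : ℕ) {z : ℝ} (h0 : 0 ≤ z) (h1 : z ≤ 3 / 4) :
    Y n z = nr (W 0 n) + sr (W 0 n) * (z * Y (n + 1) z) := by
  unfold Y
  rw [(TT_sum n h0 h1).tsum_eq_zero_add]
  congr 1
  · simp [TT, pr]
  · rw [← tsum_mul_left, ← tsum_mul_left]
    congr 1
    funext j
    unfold TT
    rw [pr_succ', pow_succ, show n + (j + 1) = n + 1 + j by ring]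
    ring

lemma Y_false {n : ℕ} {z : ℝ} (h0 : 0 ≤ z) (h1 : z ≤ 3 / 4) (h : W 0 n = false) :
    Y n z = z * Y (n + 1) z := by
  rw [Y_rec n h0 h1, h]
  simp [nr, sr]

lemma Y_true {n : ℕ} {z : ℝ} (h0 : 0 ≤ z) (h1 : z ≤ 3 / 4) (h : W 0 n = true) :
    Y n z = 1 - z * Y (n + 1) z := by
  rw [Y_rec n h0 h1, h]
  simp [nr, sr]
  ring

lemma Y_cont (n : ℕ) : ContinuousOn (Y n) (Set.Icc 0 (3 / 4)) := by
  unfold Y
  refine continuousOn_tsum (fun j => ?_) geo (fun j z hz => TT_le n j hz.1 hz.2)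
  unfold TT
  fun_prop

lemma Y_abs (n : ℕ) {z : ℝ} (h0 : 0 ≤ z) (h1 : z ≤ 3 / 4) : |Y n z| ≤ 4 := by
  have h2 : ‖Y n z‖ ≤ ∑' j : ℕ, (3 / 4 : ℝ) ^ j :=
    tsum_of_norm_bounded geo.hasSum fun j => TT_le n j h0 h1
  rw [tsum_geometric_of_lt_one (by norm_num) (by norm_num)] at h2
  rw [← Real.norm_eq_abs]
  refine h2.trans (le_of_eq (by norm_num))

lemma Y_bd {z : ℝ} (h0 : 0 ≤ z) (h1 : z ≤ 3 / 4) (k : ℕ) : ∀ n, -(4 * (3 / 4) ^ k) ≤ Y n z ∧
    Y n z ≤ 1 + 4 * (3 / 4) ^ k := by
  induction k with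
  | zero =>
    intro n
    have := abs_le.1 (Y_abs n h0 h1)
    constructor <;> norm_num <;> linarith
  | succ k ih =>
    intro n
    obtain ⟨h2, h3⟩ := ih (n + 1)
    have hp : (0:ℝ) ≤ 4 * (3 / 4) ^ k := by positivity
    have e : (4:ℝ) * (3 / 4) ^ (k + 1) = 3 / 4 * (4 * (3 / 4) ^ k) := by rw [pow_succ]; ring
    rw [e]
    set P := (4:ℝ) * (3 / 4) ^ k
    rcases hW : W 0 n with _ | _
    · rw [Y_false h0 h1 hW]
      constructor <;> nlinarith
    · rw [Y_true h0 h1 hW]
      constructor <;> nlinarith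

lemma Y_nonneg (n : ℕ) {z : ℝ} (h0 : 0 ≤ z) (h1 : z ≤ 3 / 4) : 0 ≤ Y n z := by
  by_contra hcon
  push Not at hcon
  obtain ⟨k, hk⟩ := exists_pow_lt_of_lt_one (show 0 < -(Y n z) / 4 by linarith)
    (show (3 / 4 : ℝ) < 1 by norm_num)
  have := (Y_bd h0 h1 k n).1
  linarith

lemma Y_le_one (n : ℕ) {z : ℝ} (h0 : 0 ≤ z) (h1 : z ≤ 3 / 4) : Y n z ≤ 1 := by
  by_contra hcon
  push Not at hcon
  obtain ⟨k, hk⟩ := exists_pow_lt_of_lt_one (show 0 < (Y n z - 1) / 4 by linarith)
    (show (3 / 4 : ℝ) < 1 by norm_num)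
  have := (Y_bd h0 h1 k n).2
  linarith

lemma w4 : W 0 4 = true := W_dig 0 0 4 (by norm_num) (by norm_num)
lemma w5 : W 0 5 = true := by
  have := W_dig 0 0 5 (by norm_num) (by norm_num)
  rw [chi_zero] at this
  rw [show 5 = 10 * 0 + 5 from rfl, this]; rfl
lemma w6 : W 0 6 = true := by
  have := W_dig 0 0 6 (by norm_num) (by norm_num)
  rw [chi_zero] at this
  rw [show 6 = 10 * 0 + 6 from rfl, this]; rfl
lemma w7 : W 0 7 = false := by
  have := W_dig 0 0 7 (by norm_num) (by norm_num)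
  rw [chi_zero] at this
  rw [show 7 = 10 * 0 + 7 from rfl, this]; rfl

/-- existence of the parameter -/
lemma exists_z : ∃ z : ℝ, 1 / 2 ≤ z ∧ z ^ 2 < 1 / 2 ∧ 2 * z * Y 1 z = 1 := by
  set z₀ := √2 / 2 with hz₀
  have hsq : √2 ^ 2 = 2 := Real.sq_sqrt (by norm_num)
  have hs1 : (1.4:ℝ) < √2 := by
    rw [Real.lt_sqrt (by norm_num)]; norm_num
  have hs2 : √2 < 1.5 := by
    rw [Real.sqrt_lt' (by norm_num)]; norm_num
  have hz1 : (0.7:ℝ) < z₀ := by rw [hz₀]; linarith
  have hz2 : z₀ ≤ 3 / 4 := by rw [hz₀]; linarith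
  have hzz : z₀ ^ 2 = 1 / 2 := by rw [hz₀, div_pow, hsq]; norm_num
  have hz0 : 0 ≤ z₀ := by linarith
  have hbig : 1 < 2 * z₀ * Y 1 z₀ := by
    have e1 := Y_true hz0 hz2 w1
    have e2 := Y_false hz0 hz2 w2
    have e3 := Y_false hz0 hz2 w3
    have e4 := Y_true hz0 hz2 w4
    have e5 := Y_true hz0 hz2 w5
    have e6 := Y_true hz0 hz2 w6
    have e7 := Y_false hz0 hz2 w7
    norm_num at e1 e2 e3 e4 e5 e6 e7
    have b8 := Y_le_one 8 hz0 hz2
    have b8' := Y_nonneg 8 hz0 hz2
    have b7 : 0 ≤ Y 7 z₀ := Y_nonneg 7 hz0 hz2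
    have b6 : Y 6 z₀ ≤ 1 := Y_le_one 6 hz0 hz2
    have b5 : 1 - z₀ ≤ Y 5 z₀ := by rw [e5]; nlinarith
    have b4 : Y 4 z₀ ≤ 3 / 2 - z₀ := by rw [e4]; nlinarith
    have b1 : Y 1 z₀ = 1 - z₀ / 2 * Y 4 z₀ := by
      rw [e1, e2, e3]
      have : z₀ * (z₀ * (z₀ * Y 4 z₀)) = z₀ ^ 2 * z₀ * Y 4 z₀ := by ring
      rw [this, hzz]; ring
    have b1' : 5 / 4 - 3 / 4 * z₀ ≤ Y 1 z₀ := by rw [b1]; nlinarith
    have : 2 * z₀ * (5 / 4 - 3 / 4 * z₀) ≤ 2 * z₀ * Y 1 z₀ :=
      mul_le_mul_of_nonneg_left b1' (by linarith)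
    nlinarith
  have hcont : ContinuousOn (fun z => 2 * z * Y 1 z) (Set.Icc (1 / 2) z₀) := by
    apply ContinuousOn.mul (by fun_prop)
    exact (Y_cont 1).mono (Set.Icc_subset_Icc (by norm_num) hz2)
  have hlow : 2 * (1 / 2) * Y 1 (1 / 2) ≤ 1 := by
    have := Y_le_one 1 (show (0:ℝ) ≤ 1 / 2 by norm_num) (by norm_num)
    linarith
  obtain ⟨z, hz, hzeq⟩ := intermediate_value_Icc (by linarith : (1 / 2 : ℝ) ≤ z₀) hcont
    ⟨hlow, hbig.le⟩
  refine ⟨z, hz.1, ?_, hzeq⟩
  have hne : z ≠ z₀ := by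
    intro heq
    have h5 : 2 * z * Y 1 z = 1 := hzeq
    rw [heq] at h5
    linarith
  have hlt : z < z₀ := lt_of_le_of_ne hz.2 hne
  rw [← hzz]
  nlinarith [hz.1]

section

variable {z : ℝ}

lemma Y_agree (h0 : 0 ≤ z) (h1 : z ≤ 3 / 4) (k : ℕ) : ∀ a b, (∀ i < k, W 0 (a + i) = W 0 (b + i)) →
    Y a z - Y b z = pr a k * z ^ k * (Y (a + k) z - Y (b + k) z) := by
  induction k with
  | zero => intro a b _; simp [pr]
  | succ k ih =>
    intro a b h
    have h2 := ih (a + 1) (b + 1) (fun i hi => by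
      have := h (i + 1) (by omega)
      rwa [show a + (i + 1) = a + 1 + i by ring, show b + (i + 1) = b + 1 + i by ring] at this)
    have h3 := h 0 (by omega)
    rw [add_zero, add_zero] at h3
    rw [Y_rec a h0 h1, Y_rec b h0 h1, ← h3, pr_succ', pow_succ,
      show a + (k + 1) = a + 1 + k by ring, show b + (k + 1) = b + 1 + k by ring]
    linear_combination (sr (W 0 a) * z) * h2

lemma Y_le (hz1 : 1 / 2 ≤ z) (hz2 : z ^ 2 < 1 / 2) (hz3 : 2 * z * Y 1 z = 1) (n : ℕ)
    (hn : 1 ≤ n) : Y n z ≤ Y 1 z := by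
  have h0 : 0 ≤ z := by linarith
  have h1 : z ≤ 3 / 4 := by nlinarith
  have hz0 : 0 < z := by linarith
  set M := sSup (Set.range fun n => Y (n + 1) z) with hM
  have hbdd : BddAbove (Set.range fun n => Y (n + 1) z) :=
    ⟨1, by rintro _ ⟨n, rfl⟩; exact Y_le_one _ h0 h1⟩
  have hle : ∀ n, 1 ≤ n → Y n z ≤ M := by
    intro n hn
    obtain ⟨m, rfl⟩ : ∃ m, n = m + 1 := ⟨n - 1, by omega⟩
    exact le_csSup hbdd ⟨m, rfl⟩
  have h1M := hle 1 le_rfl
  rcases h1M.lt_or_eq with hlt | heq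
  · exfalso
    have hMpos : 0 < M := by
      have := Y_nonneg 1 h0 h1
      linarith
    -- uniform bound
    have hub : ∀ n, Y (n + 1) z ≤ max (Y 1 z) (max (z * M) (Y 1 z + 2 * z ^ 2 * (M - Y 1 z))) := by
      intro n
      rcases Nat.eq_zero_or_pos n with rfl | hnpos
      · exact le_max_left _ _
      · apply le_max_of_le_right
        obtain ⟨r, ⟨hr1, hr2, hr3⟩, hSp, -, -⟩ := first_diff n hnpos
        have hCP := CP_Sp hSp
        obtain ⟨r, rfl⟩ : ∃ r', r = r' + 1 := ⟨r - 1, by omega⟩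
        have hag := Y_agree h0 h1 r 1 (n + 1) (fun i hi => by
          have := hr2 (i + 1) (by omega) (by omega)
          rw [show 1 + i = i + 1 by ring, show n + 1 + i = n + (i + 1) by ring]
          exact this.symm)
        have hpr : pr 1 (r + 1) = -1 := by rw [pr_CP, hCP]; simp
        have hpr2 : pr 1 (r + 1) = pr 1 r * sr (W 0 (r + 1)) := by
          unfold pr
          rw [Finset.prod_range_succ, add_comm 1 r]
        have ha := hle (r + 1 + 1) (by omega)
        have hb := hle (n + (r + 1) + 1) (by omega)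
        rw [show 1 + r = r + 1 by ring, show n + 1 + r = n + (r + 1) by ring] at hag
        have hkey : Y 1 z - Y (n + 1) z =
            z ^ r * (1 - z * Y (r + 1 + 1) z - z * Y (n + (r + 1) + 1) z) := by
          rcases hc : W 0 (r + 1) with _ | _
          · have hd : W 0 (n + (r + 1)) = true := by
              rw [hc] at hr3
              simpa using hr3
            rw [hag, Y_false h0 h1 hc, Y_true h0 h1 hd]
            have : pr 1 r = -1 := by
              rw [hpr2, hc] at hpr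
              simpa [sr] using hpr
            rw [this]; ring
          · have hd : W 0 (n + (r + 1)) = false := by
              rw [hc] at hr3
              simpa using hr3
            rw [hag, Y_true h0 h1 hc, Y_false h0 h1 hd]
            have : pr 1 r = 1 := by
              rw [hpr2, hc] at hpr
              simpa [sr] using hpr
            rw [this]; ring
        rcases Nat.eq_zero_or_pos r with rfl | hr
        · apply le_max_of_le_left
          have hd : W 0 (n + 1) = false := by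
            have := hr3
            rw [zero_add, w1] at this
            simpa using this
          rw [Y_false h0 h1 hd]
          exact mul_le_mul_of_nonneg_left (hle _ (by omega)) h0
        · apply le_max_of_le_right
          have hzr : z ^ r ≤ z := by
            calc z ^ r ≤ z ^ 1 := pow_le_pow_of_le_one h0 (by linarith) hr
              _ = z := pow_one z
          have hzr0 : 0 ≤ z ^ r := by positivity
          have h5 : z * Y (r + 1 + 1) z ≤ z * M := mul_le_mul_of_nonneg_left ha h0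
          have h6 : z * Y (n + (r + 1) + 1) z ≤ z * M := mul_le_mul_of_nonneg_left hb h0
          have h7 : 1 - 2 * z * M ≤ 1 - z * Y (r + 1 + 1) z - z * Y (n + (r + 1) + 1) z := by
            linarith
          have h8 : z ^ r * (1 - 2 * z * M) ≤
              z ^ r * (1 - z * Y (r + 1 + 1) z - z * Y (n + (r + 1) + 1) z) :=
            mul_le_mul_of_nonneg_left h7 hzr0
          have h9 : 0 ≤ 2 * z * M - 1 := by nlinarith
          have h10 : z ^ r * (2 * z * M - 1) ≤ z * (2 * z * M - 1) :=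
            mul_le_mul_of_nonneg_right hzr h9
          have h11 : z * (2 * z * M - 1) = 2 * z ^ 2 * (M - Y 1 z) := by
            linear_combination z * hz3
          linarith
    have hne : (Set.range fun n => Y (n + 1) z).Nonempty := ⟨_, 0, rfl⟩
    have h3 : M ≤ max (Y 1 z) (max (z * M) (Y 1 z + 2 * z ^ 2 * (M - Y 1 z))) :=
      csSup_le hne (by rintro _ ⟨n, rfl⟩; exact hub n)
    have h4 : max (Y 1 z) (max (z * M) (Y 1 z + 2 * z ^ 2 * (M - Y 1 z))) < M := by
      refine max_lt hlt (max_lt ?_ ?_)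
      · nlinarith
      · nlinarith
    linarith
  · rw [heq]
    exact hle n hn

/-- the tent map -/
noncomputable def tent (s x : ℝ) : ℝ := s * min x (1 - x)

theorem exists_tent : ∃ s : ℝ, √2 < s ∧ s ≤ 2 ∧ ∀ n, 1 ≤ n →
    (W 0 n = true ↔ 1 / 2 < (tent s)^[n] (1 / 2)) ∧
    (W 0 n = false ↔ (tent s)^[n] (1 / 2) < 1 / 2) := by
  obtain ⟨z, hz1, hz2, hz3⟩ := exists_z
  have h0 : 0 ≤ z := by linarith
  have hz0 : 0 < z := by linarith
  have h1 : z ≤ 3 / 4 := by nlinarith
  have hzs : z * (1 / z) = 1 := by field_simp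
  have hY1 : Y 1 z = 1 / z / 2 := by
    field_simp
    linarith
  have hle := Y_le hz1 hz2 hz3
  have hzY : ∀ n, 1 ≤ n → z * Y n z ≤ 1 / 2 := by
    intro n hn
    have := mul_le_mul_of_nonneg_left (hle n hn) h0
    linarith
  have hstep : ∀ n, 1 ≤ n → tent (1 / z) (Y n z) = Y (n + 1) z := by
    intro n hn
    have h2 := hzY (n + 1) (by omega)
    unfold tent
    rcases hW : W 0 n with _ | _
    · rw [Y_false h0 h1 hW, min_eq_left (by linarith)]
      field_simp
    · rw [Y_true h0 h1 hW, min_eq_right (by linarith)]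
      field_simp
      ring
  have horb : ∀ n, (tent (1 / z))^[n + 1] (1 / 2) = Y (n + 1) z := by
    intro n
    induction n with
    | zero =>
      rw [zero_add, Function.iterate_one, hY1]
      unfold tent
      norm_num
      ring
    | succ n ih =>
      rw [Function.iterate_succ_apply', ih, hstep _ (by omega)]
  have hshift : ∀ n, 1 ≤ n → Y n z = 1 / 2 → ∀ j, 1 ≤ j → Y (n + j) z = Y j z := by
    intro n hn hY j hj
    induction j, hj using Nat.le_induction with
    | base =>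
      rw [← hstep n hn, hY]
      have := horb 0
      rw [zero_add, Function.iterate_one] at this
      exact this
    | succ j hj ih =>
      rw [← add_assoc, ← hstep (n + j) (by omega), ih, hstep j hj]
  have hlow : ∀ n, 1 ≤ n → W 0 n = false → Y n z ≤ 1 / 2 := by
    intro n hn hW
    rw [Y_false h0 h1 hW]
    exact hzY _ (by omega)
  have hhigh : ∀ n, 1 ≤ n → W 0 n = true → 1 / 2 ≤ Y n z := by
    intro n hn hW
    rw [Y_true h0 h1 hW]
    have := hzY (n + 1) (by omega)
    linarith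
  have hne : ∀ n, 1 ≤ n → Y n z ≠ 1 / 2 := by
    intro n
    induction n using Nat.strong_induction_on with
    | _ n ih =>
      intro hn hY
      rcases Nat.lt_or_ge n 2 with h2 | h2
      · obtain rfl : n = 1 := by omega
        rw [hY] at hz3
        nlinarith
      · obtain ⟨r, ⟨hr1, -, hr3⟩, -, hr4, -⟩ := first_diff n hn
        have hrn := hr4 h2
        have hs := hshift n hn hY r hr1
        apply ih r hrn hr1
        rcases hc : W 0 r with _ | _
        · have hd : W 0 (n + r) = true := by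
            rw [hc] at hr3
            simpa using hr3
          have h3 := hlow r hr1 hc
          have h4 := hhigh (n + r) (by omega) hd
          linarith
        · have hd : W 0 (n + r) = false := by
            rw [hc] at hr3
            simpa using hr3
          have h3 := hhigh r hr1 hc
          have h4 := hlow (n + r) (by omega) hd
          linarith
  refine ⟨1 / z, ?_, ?_, ?_⟩
  · rw [Real.sqrt_lt' (by positivity), div_pow, one_pow, lt_div_iff₀ (by positivity)]
    linarith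
  · rw [div_le_iff₀ hz0]
    linarith
  · intro n hn
    obtain ⟨m, rfl⟩ : ∃ m, n = m + 1 := ⟨n - 1, by omega⟩
    rw [horb]
    rcases hW : W 0 (m + 1) with _ | _
    · have h3 := lt_of_le_of_ne (hlow _ hn hW) (hne _ hn)
      exact ⟨⟨fun h => absurd h (by simp), fun h => by linarith⟩, ⟨fun _ => h3, fun _ => rfl⟩⟩
    · have h3 := lt_of_le_of_ne (hhigh _ hn hW) (hne _ hn).symm
      exact ⟨⟨fun _ => h3, fun _ => rfl⟩, ⟨fun h => absurd h (by simp), fun h => by linarith⟩⟩

end

end Pool.Agent.R571.TO
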