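import Pool.Agent.R571.TO.First

/-! First differences at level zero, general statement. -/

namespace Pool.Agent.R571.TO

lemma w1 : W 0 1 = true := by rw [W1]; rfl
lemma w2 : W 0 2 = false := by rw [W2]; rfl
lemma w3 : W 0 3 = false := by rw [W3]; rfl

lemma IsR.one {n : ℕ} (h : W 0 (n + 1) = false) : IsR n 1 :=
  ⟨le_rfl, fun i _ _ => by omega, by rw [h, w1]; simp⟩

lemma IsR.two {n : ℕ} (h1 : W 0 (n + 1) = true) (h2 : W 0 (n + 2) = true) : IsR n 2 := by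
  refine ⟨by norm_num, fun i hi1 hi2 => ?_, by rw [h2, w2]; simp⟩
  obtain rfl : i = 1 := by omega
  rw [h1, w1]

lemma IsR.three {n : ℕ} (h1 : W 0 (n + 1) = true) (h2 : W 0 (n + 2) = false)
    (h3 : W 0 (n + 3) = true) : IsR n 3 := by
  refine ⟨by norm_num, fun i hi1 hi2 => ?_, by rw [h3, w3]; simp⟩
  obtain rfl | rfl : i = 1 ∨ i = 2 := by omega
  · rw [h1, w1]
  · rw [h2, w2]

/-- the finite check at level zero -/
lemma fc_zero (n : ℕ) (hn : 1 ≤ n) (hz : n % 10 ≠ 0 ∨ chi (n / 10) = false) :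
    ∃ j, 1 ≤ j ∧ j ≤ 3 ∧ (2 ≤ n → j < n) ∧ IsR n j := by
  obtain ⟨q₁, d, hd, rfl⟩ : ∃ q₁ d, d < 10 ∧ n = 10 * q₁ + d := ⟨n / 10, n % 10, by omega, by omega⟩
  have hdm : (10 * q₁ + d) % 10 = d := by omega
  have hdd : (10 * q₁ + d) / 10 = q₁ := by omega
  rw [hdm, hdd] at hz
  have V : ∀ e, 1 ≤ e → e < 10 → W 0 (10 * q₁ + e) = tab 0 e (chi q₁) :=
    fun e he1 he => W_dig 0 q₁ e he1 he
  have hq10 : chi q₁ = false → q₁ ≠ 0 := fun h hq => by
    rw [hq, chi_zero] at h; exact absurd h (by simp)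
  have h11 : W 0 (10 * q₁ + 11) = true := by
    rw [show 10 * q₁ + 11 = 10 * (q₁ + 1) + 1 by ring, W_dig _ _ _ (by norm_num) (by norm_num)]
    rfl
  interval_cases d
  · simp only [ne_eq, not_true_eq_false, false_or] at hz
    have := hq10 hz
    refine ⟨3, by norm_num, le_rfl, by omega, IsR.three ?_ ?_ ?_⟩
    · rw [show 10 * q₁ + 0 + 1 = 10 * q₁ + 1 by ring, V 1 (by norm_num) (by norm_num)]; rfl
    · rw [show 10 * q₁ + 0 + 2 = 10 * q₁ + 2 by ring, V 2 (by norm_num) (by norm_num)]; rfl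
    · rw [show 10 * q₁ + 0 + 3 = 10 * q₁ + 3 by ring, V 3 (by norm_num) (by norm_num), hz]; rfl
  · refine ⟨1, le_rfl, by norm_num, by omega, IsR.one ?_⟩
    rw [show 10 * q₁ + 1 + 1 = 10 * q₁ + 2 by ring, V 2 (by norm_num) (by norm_num)]; rfl
  · rcases hcase : chi q₁ with _ | _
    · refine ⟨2, by norm_num, by norm_num, by have := hq10 hcase; omega, IsR.two ?_ ?_⟩
      · rw [show 10 * q₁ + 2 + 1 = 10 * q₁ + 3 by ring, V 3 (by norm_num) (by norm_num), hcase]; rfl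
      · rw [show 10 * q₁ + 2 + 2 = 10 * q₁ + 4 by ring, V 4 (by norm_num) (by norm_num)]; rfl
    · refine ⟨1, le_rfl, by norm_num, by omega, IsR.one ?_⟩
      rw [show 10 * q₁ + 2 + 1 = 10 * q₁ + 3 by ring, V 3 (by norm_num) (by norm_num), hcase]; rfl
  · have h1 : W 0 (10 * q₁ + 3 + 1) = true := by
      rw [show 10 * q₁ + 3 + 1 = 10 * q₁ + 4 by ring, V 4 (by norm_num) (by norm_num)]; rfl
    rcases hcase : chi q₁ with _ | _
    · refine ⟨3, by norm_num, le_rfl, by have := hq10 hcase; omega, IsR.three h1 ?_ ?_⟩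
      · rw [show 10 * q₁ + 3 + 2 = 10 * q₁ + 5 by ring, V 5 (by norm_num) (by norm_num), hcase]; rfl
      · rw [show 10 * q₁ + 3 + 3 = 10 * q₁ + 6 by ring, V 6 (by norm_num) (by norm_num), hcase]; rfl
    · refine ⟨2, by norm_num, by norm_num, by omega, IsR.two h1 ?_⟩
      rw [show 10 * q₁ + 3 + 2 = 10 * q₁ + 5 by ring, V 5 (by norm_num) (by norm_num), hcase]; rfl
  · rcases hcase : chi q₁ with _ | _
    · refine ⟨1, le_rfl, by norm_num, by omega, IsR.one ?_⟩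
      rw [show 10 * q₁ + 4 + 1 = 10 * q₁ + 5 by ring, V 5 (by norm_num) (by norm_num), hcase]; rfl
    · refine ⟨2, by norm_num, by norm_num, by omega, IsR.two ?_ ?_⟩
      · rw [show 10 * q₁ + 4 + 1 = 10 * q₁ + 5 by ring, V 5 (by norm_num) (by norm_num), hcase]; rfl
      · rw [show 10 * q₁ + 4 + 2 = 10 * q₁ + 6 by ring, V 6 (by norm_num) (by norm_num), hcase]; rfl
  · have h1 : W 0 (10 * q₁ + 5 + 1) = true := by
      rw [show 10 * q₁ + 5 + 1 = 10 * q₁ + 6 by ring, V 6 (by norm_num) (by norm_num)]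
      cases chi q₁ <;> rfl
    rcases hcase : chi q₁ with _ | _
    · refine ⟨2, by norm_num, by norm_num, by omega, IsR.two h1 ?_⟩
      rw [show 10 * q₁ + 5 + 2 = 10 * q₁ + 7 by ring, V 7 (by norm_num) (by norm_num), hcase]; rfl
    · refine ⟨3, by norm_num, le_rfl, by omega, IsR.three h1 ?_ ?_⟩
      · rw [show 10 * q₁ + 5 + 2 = 10 * q₁ + 7 by ring, V 7 (by norm_num) (by norm_num), hcase]; rfl
      · rw [show 10 * q₁ + 5 + 3 = 10 * q₁ + 8 by ring, V 8 (by norm_num) (by norm_num), hcase]; rfl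
  · rcases hcase : chi q₁ with _ | _
    · refine ⟨2, by norm_num, by norm_num, by omega, IsR.two ?_ ?_⟩
      · rw [show 10 * q₁ + 6 + 1 = 10 * q₁ + 7 by ring, V 7 (by norm_num) (by norm_num), hcase]; rfl
      · rw [show 10 * q₁ + 6 + 2 = 10 * q₁ + 8 by ring, V 8 (by norm_num) (by norm_num), hcase]; rfl
    · refine ⟨1, le_rfl, by norm_num, by omega, IsR.one ?_⟩
      rw [show 10 * q₁ + 6 + 1 = 10 * q₁ + 7 by ring, V 7 (by norm_num) (by norm_num), hcase]; rfl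
  · refine ⟨2, by norm_num, by norm_num, by omega, IsR.two ?_ ?_⟩
    · rw [show 10 * q₁ + 7 + 1 = 10 * q₁ + 8 by ring, V 8 (by norm_num) (by norm_num)]
      cases chi q₁ <;> rfl
    · rw [show 10 * q₁ + 7 + 2 = 10 * q₁ + 9 by ring, V 9 (by norm_num) (by norm_num)]; rfl
  · have h1 : W 0 (10 * q₁ + 8 + 1) = true := by
      rw [show 10 * q₁ + 8 + 1 = 10 * q₁ + 9 by ring, V 9 (by norm_num) (by norm_num)]; rfl
    rcases he : W 0 (10 * q₁ + 8 + 2) with _ | _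
    · exact ⟨3, by norm_num, le_rfl, by omega, IsR.three h1 he h11⟩
    · exact ⟨2, by norm_num, by norm_num, by omega, IsR.two h1 he⟩
  · rcases he : W 0 (10 * q₁ + 9 + 1) with _ | _
    · exact ⟨1, le_rfl, by norm_num, by omega, IsR.one he⟩
    · exact ⟨2, by norm_num, by norm_num, by omega, IsR.two he h11⟩

/-- the special lengths -/
def Sp (r : ℕ) : Prop := (∃ k j, 1 ≤ j ∧ j ≤ 3 ∧ r = 10 ^ k * j) ∨ ∃ k, r = 10 ^ k * 13

/-- `n` belongs to `Z_m` -/
def InZ (m n : ℕ) : Prop := ∃ q, n = 10 ^ m * q ∧ chi q = true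

lemma exists_level (n : ℕ) (hn : 1 ≤ n) :
    ∃ k q, n = 10 ^ k * q ∧ 1 ≤ q ∧ ((q % 10 ≠ 0 ∧ (1 ≤ k → chi q = true)) ∨
      (q % 10 = 0 ∧ chi (q / 10) = false)) := by
  obtain ⟨k, q, hq, rfl⟩ : ∃ k q, ¬ 10 ∣ q ∧ n = 10 ^ k * q := by
    obtain ⟨k, q, h1, h2⟩ := Nat.exists_eq_pow_mul_and_not_dvd (by omega : n ≠ 0) 10 (by norm_num)
    exact ⟨k, q, h1, h2⟩
  have hq1 : 1 ≤ q := by
    rcases Nat.eq_zero_or_pos q with rfl | h
    · exact absurd (dvd_zero 10) hq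
    · exact h
  rcases Nat.eq_zero_or_pos k with rfl | hk
  · exact ⟨0, q, rfl, hq1, Or.inl ⟨by omega, by omega⟩⟩
  · rcases hc : chi q with _ | _
    · obtain ⟨k', rfl⟩ : ∃ k', k = k' + 1 := ⟨k - 1, by omega⟩
      refine ⟨k', 10 * q, by ring, by omega, Or.inr ⟨by omega, ?_⟩⟩
      have : 10 * q / 10 = q := by omega
      rw [this, hc]
    · exact ⟨k, q, rfl, hq1, Or.inl ⟨by omega, fun _ => hc⟩⟩

/-- general first difference -/
theorem first_diff (n : ℕ) (hn : 1 ≤ n) : ∃ r, IsR n r ∧ Sp r ∧ (2 ≤ n → r < n) ∧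
    ∀ m, 1 ≤ m → ¬ InZ m n → r ≤ 3 * 10 ^ (m - 1) := by
  obtain ⟨k, q, rfl, hq, hcase⟩ := exists_level n hn
  have hbound : ∀ m, 1 ≤ m → ¬ InZ m (10 ^ k * q) → k ≤ m - 1 := by
    intro m hm hz
    by_contra hcon
    push Not at hcon
    apply hz
    have hk1 : 1 ≤ k := by omega
    rcases hcase with ⟨h1, h2⟩ | ⟨h1, h2⟩
    · obtain ⟨e, rfl⟩ : ∃ e, k = m + e := ⟨k - m, by omega⟩
      refine ⟨10 ^ e * q, by ring, ?_⟩
      rcases Nat.eq_zero_or_pos e with rfl | he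
      · simpa using h2 (by omega)
      · obtain ⟨e', rfl⟩ : ∃ e', e = e' + 1 := ⟨e - 1, by omega⟩
        have : 10 ^ (e' + 1) * q = 10 * (10 ^ e' * q) := by ring
        rw [this]; exact chi_ten _
    · obtain ⟨e, rfl⟩ : ∃ e, k = m + e := ⟨k - m, by omega⟩
      refine ⟨10 ^ e * q, by ring, ?_⟩
      obtain ⟨q', rfl⟩ : ∃ q', q = 10 * q' := ⟨q / 10, by omega⟩
      have : 10 ^ e * (10 * q') = 10 * (10 ^ e * q') := by ring
      rw [this]; exact chi_ten _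
  have hpow : ∀ m, k ≤ m - 1 → 10 ^ k ≤ 10 ^ (m - 1) := fun m h => Nat.pow_le_pow_right (by norm_num) h
  rcases Nat.eq_zero_or_pos k with rfl | hk
  · obtain ⟨j, h1, h2, h3, h4⟩ := fc_zero q hq (by
      rcases hcase with ⟨h1, -⟩ | ⟨-, h2⟩
      · exact Or.inl h1
      · exact Or.inr h2)
    refine ⟨j, by simpa using h4, Or.inl ⟨0, j, h1, h2, by simp⟩, by simpa using h3, ?_⟩
    intro m hm _
    have : 1 ≤ 10 ^ (m - 1) := Nat.one_le_pow _ _ (by norm_num)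
    omega
  · have hc : chi q = true := by
      rcases hcase with ⟨-, h2⟩ | ⟨h1, -⟩
      · exact h2 hk
      · obtain ⟨q', rfl⟩ : ∃ q', q = 10 * q' := ⟨q / 10, by omega⟩
        exact chi_ten _
    rcases fc_pos k q hk hq hc (by
      rcases hcase with ⟨h1, -⟩ | ⟨-, h2⟩
      · exact Or.inl h1
      · exact Or.inr h2) with ⟨j, h1, h2, h3, h4, h5⟩ | ⟨h1, h2, h3, h4⟩
    · refine ⟨10 ^ k * j, IsR.of_Ag h1 h4 h5, Or.inl ⟨k, j, h1, h2, rfl⟩, fun _ => ?_, ?_⟩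
      · exact Nat.mul_lt_mul_of_pos_left h3 (by positivity)
      · intro m hm hz
        have := hpow m (hbound m hm hz)
        nlinarith
    · obtain ⟨k', rfl⟩ : ∃ k', k = k' + 1 := ⟨k - 1, by omega⟩
      obtain ⟨h5, h6⟩ := h2.type2 le_rfl h3 h4
      have h7 := IsR.of_Ag (by norm_num) h5 h6
      have e1 : 10 ^ k' * (10 * q) = 10 ^ (k' + 1) * q := by ring
      rw [e1] at h7
      refine ⟨10 ^ k' * (10 * 1 + 3), h7, Or.inr ⟨k', by ring⟩, fun _ => ?_, ?_⟩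
      · rw [pow_succ]
        have : 0 < 10 ^ k' := by positivity
        nlinarith
      · intro m hm hz
        have := hpow m (hbound m hm hz)
        rw [pow_succ] at this
        omega

end Pool.Agent.R571.TO
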